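import Pool.Agent.Lib.MP_758516_an.Defs

open Set Filter Topology

namespace Pool.Agent.CPav

variable {X Y X₂ Y₁ : Type*}
  [NormedAddCommGroup X] [NormedSpace ℝ X] [NormedAddCommGroup Y] [NormedSpace ℝ Y]
  [NormedAddCommGroup X₂] [NormedSpace ℝ X₂] [NormedAddCommGroup Y₁] [NormedSpace ℝ Y₁]

omit [NormedSpace ℝ Y] in
/-- Chains of small steps. -/
theorem coarA_chain (G : X → Y) (δ : ℝ) (hδ : 0 < δ)
    (h : ∀ x x' : X, ‖x - x'‖ < δ → ‖G x - G x'‖ ≤ 1) (n : ℕ) :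
    ∀ x x' : X, ‖x - x'‖ ≤ n * (δ / 2) → ‖G x - G x'‖ ≤ n := by
  induction n with
  | zero =>
    intro x x' hx
    have h0 : ‖x - x'‖ = 0 := le_antisymm (by simpa using hx) (norm_nonneg _)
    have h1 : x = x' := by rwa [norm_eq_zero, sub_eq_zero] at h0
    subst h1
    simp
  | succ n ih =>
    intro x x' hx
    have hn : (0 : ℝ) < (n : ℝ) + 1 := by positivity
    push_cast at hx ⊢
    set y : X := x' + ((n : ℝ) / (n + 1)) • (x - x') with hy
    have e1 : x - y = ((1 : ℝ) / (n + 1)) • (x - x') := by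
      have : ((1 : ℝ) / (n + 1)) = 1 - (n : ℝ) / (n + 1) := by field_simp; ring
      rw [this, sub_smul, one_smul, hy]
      abel
    have e2 : y - x' = ((n : ℝ) / (n + 1)) • (x - x') := by
      rw [hy]
      abel
    have n1 : ‖x - y‖ ≤ δ / 2 := by
      rw [e1, norm_smul, Real.norm_of_nonneg (by positivity), div_mul_eq_mul_div, one_mul,
        div_le_iff₀ hn]
      linarith
    have n2 : ‖y - x'‖ ≤ n * (δ / 2) := by
      rw [e2, norm_smul, Real.norm_of_nonneg (by positivity), div_mul_eq_mul_div,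
        div_le_iff₀ hn]
      have : (n : ℝ) * ‖x - x'‖ ≤ n * ((n + 1) * (δ / 2)) :=
        mul_le_mul_of_nonneg_left hx (by positivity)
      linarith
    have a1 := h x y (by linarith)
    have a2 := ih y x' n2
    calc ‖G x - G x'‖ = ‖(G x - G y) + (G y - G x')‖ := by congr 1; abel
      _ ≤ ‖G x - G y‖ + ‖G y - G x'‖ := norm_add_le _ _
      _ ≤ n + 1 := by linarith

/-- Uniformly continuous maps are Lipschitz for large distances. -/
theorem coarA_lip (G : X → Y) (hG : UniformContinuous G) :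
    ∃ K : ℝ, 0 < K ∧ ∀ x x' : X, ‖G x - G x'‖ ≤ K * (‖x - x'‖ + 1) := by
  obtain ⟨δ, hδ, h⟩ := Metric.uniformContinuous_iff.1 hG 1 one_pos
  have h' : ∀ x x' : X, ‖x - x'‖ < δ → ‖G x - G x'‖ ≤ 1 := by
    intro x x' hx
    have := h (a := x) (b := x') (by rwa [dist_eq_norm])
    rw [dist_eq_norm] at this
    exact this.le
  have hd : 0 < δ / 2 := by positivity
  refine ⟨(δ / 2)⁻¹ + 1, by positivity, ?_⟩
  intro x x'
  have a := coarA_chain G δ hδ h' ⌈‖x - x'‖ / (δ / 2)⌉₊ x x' (by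
    have := Nat.le_ceil (‖x - x'‖ / (δ / 2))
    rwa [div_le_iff₀ hd] at this)
  have b : (⌈‖x - x'‖ / (δ / 2)⌉₊ : ℝ) < ‖x - x'‖ / (δ / 2) + 1 :=
    Nat.ceil_lt_add_one (by positivity)
  have c : 0 ≤ ‖x - x'‖ := norm_nonneg _
  have d : 0 ≤ (δ / 2)⁻¹ := by positivity
  rw [div_eq_mul_inv] at a b
  have e : 0 ≤ ‖x - x'‖ * (δ / 2)⁻¹ := mul_nonneg c d
  have f : ((δ / 2)⁻¹ + 1) * (‖x - x'‖ + 1) =
    ‖x - x'‖ * (δ / 2)⁻¹ + (δ / 2)⁻¹ + ‖x - x'‖ + 1 := by ring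
  rw [f]
  linarith

/-- JOB CoarA. Uniform homeomorphisms are coarse bi-Lipschitz; rescale
`f x = ε • (Φ (ε⁻¹ • x) - Φ 0)`. -/
theorem coarseEq_of_uniform (Φ : UniformEquiv X Y) : ∃ L : ℝ, 0 < L ∧ CoarseEq X Y L := by
  obtain ⟨K, hK, h1⟩ := coarA_lip Φ Φ.uniformContinuous
  obtain ⟨K', hK', h2⟩ := coarA_lip Φ.symm Φ.symm.uniformContinuous
  refine ⟨max K K', lt_max_of_lt_left hK, ?_⟩
  intro ε hε
  have hε' : ε ≠ 0 := hε.ne'
  let f : X ≃ Y :=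
    { toFun := fun x => ε • (Φ (ε⁻¹ • x) - Φ 0)
      invFun := fun y => ε • Φ.symm (ε⁻¹ • y + Φ 0)
      left_inv := by
        intro x
        show ε • Φ.symm (ε⁻¹ • (ε • (Φ (ε⁻¹ • x) - Φ 0)) + Φ 0) = x
        rw [inv_smul_smul₀ hε', sub_add_cancel, UniformEquiv.symm_apply_apply,
          smul_inv_smul₀ hε']
      right_inv := by
        intro y
        show ε • (Φ (ε⁻¹ • (ε • Φ.symm (ε⁻¹ • y + Φ 0))) - Φ 0) = y
        rw [inv_smul_smul₀ hε', UniformEquiv.apply_symm_apply, add_sub_cancel_right,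
          smul_inv_smul₀ hε'] }
  have hf : ∀ x, f x = ε • (Φ (ε⁻¹ • x) - Φ 0) := fun x => rfl
  refine ⟨f, by rw [hf, smul_zero, sub_self, smul_zero], ?_⟩
  intro x x'
  have e1 : ‖f x - f x'‖ = ε * ‖Φ (ε⁻¹ • x) - Φ (ε⁻¹ • x')‖ := by
    rw [hf, hf, ← smul_sub, norm_smul, Real.norm_of_nonneg hε.le]
    congr 2
    abel
  have e2 : ‖x - x'‖ = ε * ‖ε⁻¹ • x - ε⁻¹ • x'‖ := by
    rw [← smul_sub, norm_smul, Real.norm_of_nonneg (inv_nonneg.2 hε.le), ← mul_assoc,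
      mul_inv_cancel₀ hε', one_mul]
  have a1 := h1 (ε⁻¹ • x) (ε⁻¹ • x')
  have a2 := h2 (Φ (ε⁻¹ • x)) (Φ (ε⁻¹ • x'))
  rw [UniformEquiv.symm_apply_apply, UniformEquiv.symm_apply_apply] at a2
  rw [e1, e2]
  set p := ‖Φ (ε⁻¹ • x) - Φ (ε⁻¹ • x')‖ with hp
  set q := ‖ε⁻¹ • x - ε⁻¹ • x'‖ with hq
  have hp0 : 0 ≤ p := norm_nonneg _
  have hq0 : 0 ≤ q := norm_nonneg _
  constructor
  · calc ε * p ≤ ε * (K * (q + 1)) := mul_le_mul_of_nonneg_left a1 hε.le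
      _ ≤ ε * (max K K' * (q + 1)) := by gcongr; exact le_max_left _ _
      _ = max K K' * (ε * q + ε) := by ring
  · calc ε * q ≤ ε * (K' * (p + 1)) := mul_le_mul_of_nonneg_left a2 hε.le
      _ ≤ ε * (max K K' * (p + 1)) := by gcongr; exact le_max_right _ _
      _ = max K K' * (ε * p + ε) := by ring

end Pool.Agent.CPav
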