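import Pool.Agent.Lib.MP_758516_an.Defs

open Set Filter Topology

namespace Pool.Agent.CPav

variable {X Y X₂ Y₁ : Type*}
  [NormedAddCommGroup X] [NormedSpace ℝ X] [NormedAddCommGroup Y] [NormedSpace ℝ Y]
  [NormedAddCommGroup X₂] [NormedSpace ℝ X₂] [NormedAddCommGroup Y₁] [NormedSpace ℝ Y₁]

private theorem coarB_bound {U W : Type*} [NormedAddCommGroup U] [NormedSpace ℝ U]
    [NormedAddCommGroup W] [NormedSpace ℝ W] (T : U →L[ℝ] W) :
    ∃ c : ℝ, 1 ≤ c ∧ ∀ u v : U, ‖T u - T v‖ ≤ c * ‖u - v‖ := by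
  refine ⟨‖T‖ + 1, by linarith [norm_nonneg T], fun u v => ?_⟩
  rw [← map_sub]
  have h1 := T.le_opNorm (u - v)
  have h2 := norm_nonneg (u - v)
  linarith [h1, h2]

/-- JOB CoarB. -/
theorem CoarseEq.congr (A : X ≃L[ℝ] X₂) (B : Y ≃L[ℝ] Y₁) (L : ℝ) (hL : 0 < L)
    (h : CoarseEq X Y L) : ∃ L' : ℝ, 0 < L' ∧ CoarseEq X₂ Y₁ L' := by
  obtain ⟨a, ha, hA⟩ := coarB_bound (A : X →L[ℝ] X₂)
  obtain ⟨a', ha', hA'⟩ := coarB_bound (A.symm : X₂ →L[ℝ] X)
  obtain ⟨b, hb, hB⟩ := coarB_bound (B : Y →L[ℝ] Y₁)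
  obtain ⟨b', hb', hB'⟩ := coarB_bound (B.symm : Y₁ →L[ℝ] Y)
  have key : ∀ c c' d d' t ε : ℝ, 1 ≤ c → 1 ≤ c' → 1 ≤ d → 1 ≤ d' → 0 ≤ t → 0 < ε →
      c * (L * (c' * t + ε)) ≤ (L * (c * c' * (d * d'))) * (t + ε) := by
    intro c c' d d' t ε hc hc' hd hd' ht hε
    have h1 : c' * t + ε ≤ c' * (t + ε) := by nlinarith
    have h2 : c * (L * (c' * t + ε)) ≤ c * (L * (c' * (t + ε))) :=
      mul_le_mul_of_nonneg_left (mul_le_mul_of_nonneg_left h1 hL.le) (by linarith)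
    have h3 : 1 ≤ d * d' := by nlinarith
    have h4 : 0 ≤ L * (c * c') * (t + ε) := by positivity
    have h5 : L * (c * c') * (t + ε) * 1 ≤ L * (c * c') * (t + ε) * (d * d') :=
      mul_le_mul_of_nonneg_left h3 h4
    calc c * (L * (c' * t + ε)) ≤ c * (L * (c' * (t + ε))) := h2
      _ = L * (c * c') * (t + ε) * 1 := by ring
      _ ≤ L * (c * c') * (t + ε) * (d * d') := h5
      _ = (L * (c * c' * (d * d'))) * (t + ε) := by ring
  refine ⟨L * (a * a' * (b * b')), by positivity, fun ε hε => ?_⟩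
  obtain ⟨f, hf0, hf⟩ := h ε hε
  refine ⟨(A.symm.toEquiv.trans f).trans B.toEquiv, ?_, fun x x' => ?_⟩
  · show B (f (A.symm 0)) = 0
    rw [map_zero, hf0, map_zero]
  · show ‖B (f (A.symm x)) - B (f (A.symm x'))‖ ≤ _ ∧
      _ ≤ L * (a * a' * (b * b')) * (‖B (f (A.symm x)) - B (f (A.symm x'))‖ + ε)
    obtain ⟨h1, h2⟩ := hf (A.symm x) (A.symm x')
    constructor
    · have e1 : ‖B (f (A.symm x)) - B (f (A.symm x'))‖ ≤ b * ‖f (A.symm x) - f (A.symm x')‖ :=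
        hB _ _
      have e2 : ‖A.symm x - A.symm x'‖ ≤ a' * ‖x - x'‖ := hA' _ _
      have e3 : ‖f (A.symm x) - f (A.symm x')‖ ≤ L * (a' * ‖x - x'‖ + ε) :=
        h1.trans (mul_le_mul_of_nonneg_left (by linarith) hL.le)
      have e4 : b * ‖f (A.symm x) - f (A.symm x')‖ ≤ b * (L * (a' * ‖x - x'‖ + ε)) :=
        mul_le_mul_of_nonneg_left e3 (by linarith)
      have e5 := key b a' a b' ‖x - x'‖ ε hb ha' ha hb' (norm_nonneg _) hε
      calc ‖B (f (A.symm x)) - B (f (A.symm x'))‖ ≤ b * (L * (a' * ‖x - x'‖ + ε)) := e1.trans e4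
        _ ≤ _ := e5
        _ = _ := by ring
    · set w := ‖B (f (A.symm x)) - B (f (A.symm x'))‖ with hw
      have e1 : ‖f (A.symm x) - f (A.symm x')‖ ≤ b' * w := by
        have := hB' (B (f (A.symm x))) (B (f (A.symm x')))
        simpa using this
      have e2 : ‖x - x'‖ ≤ a * ‖A.symm x - A.symm x'‖ := by
        have := hA (A.symm x) (A.symm x')
        simpa using this
      have e3 : ‖A.symm x - A.symm x'‖ ≤ L * (b' * w + ε) :=
        h2.trans (mul_le_mul_of_nonneg_left (by linarith) hL.le)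
      have e4 : a * ‖A.symm x - A.symm x'‖ ≤ a * (L * (b' * w + ε)) :=
        mul_le_mul_of_nonneg_left e3 (by linarith)
      have e5 := key a b' a' b w ε ha hb' ha' hb (norm_nonneg _) hε
      calc ‖x - x'‖ ≤ a * (L * (b' * w + ε)) := e2.trans e4
        _ ≤ _ := e5
        _ = _ := by ring

end Pool.Agent.CPav
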