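import Mathlib

/-!
Common pavings of uniformly homeomorphic Banach spaces: the superreflexive case.
Basic definitions.
-/

open Set Filter Topology

namespace Pool.Agent.CPav

section basic

variable (V : Type*) [NormedAddCommGroup V] [NormedSpace ℝ V]

/-- Uniform smoothness of a real normed space. -/
def UnifSmooth : Prop :=
  ∀ ε : ℝ, 0 < ε → ∃ δ : ℝ, 0 < δ ∧ ∀ x y : V, ‖x‖ = 1 → ‖y‖ ≤ δ →
    ‖x + y‖ + ‖x - y‖ ≤ 2 + ε * ‖y‖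

end basic

variable {V W X Y S : Type*}
  [NormedAddCommGroup V] [NormedSpace ℝ V] [NormedAddCommGroup W] [NormedSpace ℝ W]
  [NormedAddCommGroup X] [NormedSpace ℝ X] [NormedAddCommGroup Y] [NormedSpace ℝ Y]

/-- Rebasing and rescaling of a map. -/
noncomputable def resc (z : V) (r : ℝ) (f : V → W) : V → W :=
  fun x => r⁻¹ • (f (z + r • x) - f z)

/-- Coarse bi-Lipschitz bijections. -/
def Coarse (L ε : ℝ) (f : X ≃ Y) : Prop :=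
  ∀ x x' : X, ‖f x - f x'‖ ≤ L * (‖x - x'‖ + ε) ∧ ‖x - x'‖ ≤ L * (‖f x - f x'‖ + ε)

/-- `X` and `Y` are coarsely equivalent at all scales with constant `L`. -/
def CoarseEq (X Y : Type*) [NormedAddCommGroup X] [NormedAddCommGroup Y] (L : ℝ) : Prop :=
  ∀ ε : ℝ, 0 < ε → ∃ f : X ≃ Y, f 0 = 0 ∧
    ∀ x x' : X, ‖f x - f x'‖ ≤ L * (‖x - x'‖ + ε) ∧ ‖x - x'‖ ≤ L * (‖f x - f x'‖ + ε)

/-- A system of maps `V → W`, indexed by `S`, with a decreasing family `good ε` (`ε → 0`) of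
sets of indices which is (softly) closed under rebasing and rescaling. -/
structure Sys (V W S : Type*) [NormedAddCommGroup V] [NormedSpace ℝ V]
    [NormedAddCommGroup W] [NormedSpace ℝ W] where
  F : S → V → W
  good : ℝ → Set S
  L : ℝ
  L_pos : 0 < L
  ne : ∀ ε : ℝ, 0 < ε → (good ε).Nonempty
  mono : ∀ ε ε' : ℝ, 0 < ε → ε ≤ ε' → good ε ⊆ good ε'
  zero : ∀ ε : ℝ, 0 < ε → ∀ s ∈ good ε, F s 0 = 0
  lip : ∀ ε : ℝ, 0 < ε → ∀ s ∈ good ε, ∀ x x' : V, ‖F s x - F s x'‖ ≤ L * (‖x - x'‖ + ε)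
  clos : ∀ ε R r₀ : ℝ, 0 < ε → 0 < r₀ → ∃ ε' : ℝ, 0 < ε' ∧ ∀ s ∈ good ε', ∀ z : V, ‖z‖ ≤ R →
    ∀ r : ℝ, r₀ ≤ r → r ≤ 1 → ∃ s' ∈ good ε, F s' = resc z r (F s)

/-- `f` is equivariant in direction `e` up to `ε` on the ball of radius `ε⁻¹`. -/
def AEq (f : V → W) (e : V) (ε : ℝ) : Prop :=
  ∃ y : W, ∀ (z : V) (t : ℝ), ‖z‖ ≤ ε⁻¹ → |t| ≤ ε⁻¹ → ‖f (z + t • e) - f z - t • y‖ ≤ ε

/-- The joint extension property with constant `C`. -/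
def JointExt (X Y : Type*) [NormedAddCommGroup X] [NormedSpace ℝ X] [NormedAddCommGroup Y]
    [NormedSpace ℝ Y] (C : ℝ) : Prop :=
  ∀ (E : Submodule ℝ X) (F : Submodule ℝ Y), FiniteDimensional ℝ E → FiniteDimensional ℝ F →
    ∃ (E' : Submodule ℝ X) (F' : Submodule ℝ Y), E ≤ E' ∧ F ≤ F' ∧ FiniteDimensional ℝ E' ∧
      FiniteDimensional ℝ F' ∧ ∃ T : E' ≃L[ℝ] F',
        ‖(T : E' →L[ℝ] F')‖ * ‖(T.symm : F' →L[ℝ] E')‖ ≤ C

end Pool.Agent.CPav
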