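import Pool.Agent.Lib.MP_758516_an.Defs

open Set Filter Topology

namespace Pool.Agent.CPav

variable {V W S : Type*}
  [NormedAddCommGroup V] [NormedSpace ℝ V] [NormedAddCommGroup W] [NormedSpace ℝ W]

private lemma Ext.seg (A : Sys V W S) {s : S} {K r₀ : ℝ} (hr₀ : 0 < r₀)
    (h : ∀ z : V, ‖z‖ ≤ 2 → ∀ r : ℝ, r₀ ≤ r → r ≤ 1 → ∀ x : V, ‖x‖ = 1 →
      ‖resc z r (A.F s) x‖ ≤ K) {a b : V} (hb : ‖b‖ ≤ 2)
    (h1 : r₀ ≤ ‖a - b‖) (h2 : ‖a - b‖ ≤ 1) : ‖A.F s a - A.F s b‖ ≤ K * ‖a - b‖ := by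
  have hpos : 0 < ‖a - b‖ := lt_of_lt_of_le hr₀ h1
  have hne : ‖a - b‖ ≠ 0 := hpos.ne'
  have h3 := h b hb ‖a - b‖ h1 h2 (‖a - b‖⁻¹ • (a - b)) (by
    rw [norm_smul, norm_inv, norm_norm, inv_mul_cancel₀ hne])
  rw [resc, smul_smul, mul_inv_cancel₀ hne, one_smul, add_sub_cancel, norm_smul, norm_inv,
    norm_norm] at h3
  rw [inv_mul_le_iff₀ hpos] at h3
  linarith

private lemma Ext.unif (A : Sys V W S) {s : S} {K r₀ κ : ℝ} (hK : 0 ≤ K) (hκ : 0 ≤ κ)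
    (hr₀ : 0 < r₀) (hr₁ : r₀ ≤ 1 / 4)
    (h : ∀ z : V, ‖z‖ ≤ 2 → ∀ r : ℝ, r₀ ≤ r → r ≤ 1 → ∀ x : V, ‖x‖ = 1 →
      ‖resc z r (A.F s) x‖ ≤ K)
    (hs : ∀ a b : V, ‖a - b‖ < r₀ → ‖A.F s a - A.F s b‖ ≤ κ) {a b : V}
    (ha : ‖a‖ ≤ 2) (hb : ‖b‖ ≤ 2) : ‖A.F s a - A.F s b‖ ≤ K * ‖a - b‖ + κ := by
  have hab0 : 0 ≤ ‖a - b‖ := norm_nonneg _
  by_cases h0 : ‖a - b‖ < r₀
  · have := hs a b h0
    have h' := mul_nonneg hK hab0
    linarith
  push Not at h0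
  by_cases h1 : ‖a - b‖ ≤ 1
  · have := Ext.seg A hr₀ h hb h0 h1
    linarith
  push Not at h1
  have h4 : ‖a - b‖ ≤ 4 := by
    have := norm_sub_le a b
    linarith
  set c : ℝ → V := fun θ => b + θ • (a - b) with hc
  have hcn : ∀ θ : ℝ, 0 ≤ θ → θ ≤ 1 → ‖c θ‖ ≤ 2 := by
    intro θ h0 h1
    have e : c θ = (1 - θ) • b + θ • a := by
      simp only [hc, smul_sub, sub_smul, one_smul]
      abel
    rw [e]
    calc ‖(1 - θ) • b + θ • a‖ ≤ ‖(1 - θ) • b‖ + ‖θ • a‖ := norm_add_le _ _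
      _ = (1 - θ) * ‖b‖ + θ * ‖a‖ := by
          rw [norm_smul, norm_smul, Real.norm_of_nonneg (by linarith : (0:ℝ) ≤ 1 - θ),
            Real.norm_of_nonneg h0]
      _ ≤ (1 - θ) * 2 + θ * 2 := by
          have : 0 ≤ 1 - θ := by linarith
          gcongr
      _ = 2 := by ring
  have hstep : ∀ θ : ℝ, 0 ≤ θ → θ ≤ 3 / 4 →
      ‖A.F s (c (θ + 1 / 4)) - A.F s (c θ)‖ ≤ K * (‖a - b‖ / 4) := by
    intro θ hθ0 hθ1
    have e : c (θ + 1 / 4) - c θ = (1 / 4 : ℝ) • (a - b) := by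
      simp only [hc, add_smul]
      abel
    have en : ‖c (θ + 1 / 4) - c θ‖ = ‖a - b‖ / 4 := by
      rw [e, norm_smul, Real.norm_of_nonneg (by norm_num : (0:ℝ) ≤ 1 / 4)]
      ring
    have := Ext.seg A (a := c (θ + 1 / 4)) (b := c θ) hr₀ h (hcn θ hθ0 (by linarith))
      (by rw [en]; linarith) (by rw [en]; linarith)
    rwa [en] at this
  have t1 := hstep 0 le_rfl (by norm_num)
  have t2 := hstep (1 / 4) (by norm_num) (by norm_num)
  have t3 := hstep (2 / 4) (by norm_num) (by norm_num)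
  have t4 := hstep (3 / 4) (by norm_num) (by norm_num)
  have e0 : c 0 = b := by simp [hc]
  have e4 : c (3 / 4 + 1 / 4) = a := by
    norm_num [hc]
  have e1 : (0 : ℝ) + 1 / 4 = 1 / 4 := by norm_num
  have e2 : (1 / 4 : ℝ) + 1 / 4 = 2 / 4 := by norm_num
  have e3 : (2 / 4 : ℝ) + 1 / 4 = 3 / 4 := by norm_num
  rw [e1, e0] at t1
  rw [e2] at t2
  rw [e3] at t3
  rw [e4] at t4
  have tri : ‖A.F s a - A.F s b‖ ≤ ‖A.F s a - A.F s (c (3 / 4))‖ +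
      ‖A.F s (c (3 / 4)) - A.F s (c (2 / 4))‖ + ‖A.F s (c (2 / 4)) - A.F s (c (1 / 4))‖ +
      ‖A.F s (c (1 / 4)) - A.F s b‖ := by
    have e : A.F s a - A.F s b = (A.F s a - A.F s (c (3 / 4))) +
      (A.F s (c (3 / 4)) - A.F s (c (2 / 4))) + (A.F s (c (2 / 4)) - A.F s (c (1 / 4))) +
      (A.F s (c (1 / 4)) - A.F s b) := by abel
    rw [e]
    refine (norm_add_le _ _).trans ?_
    gcongr
    refine (norm_add_le _ _).trans ?_
    gcongr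
    exact norm_add_le _ _
  linarith

/-- JOB Ext. Existence of extremal members of a system.

Proof. Let `P` be the set of all `m` such that for some `ε > 0`: `‖F s x‖ ≤ m` for all `s ∈ good ε`
and all unit vectors `x`; `L * (1 + ε) ∈ P` for every `ε > 0`, and `P` is bounded below by `0`
(`ne`, `exists_norm_eq`/`Nontrivial`). Put `M = sInf P`. So (i) for `η > 0` there is `ε₀ > 0` with
`‖F s x‖ ≤ M + η` for `s ∈ good ε₀`, `‖x‖ = 1` and (ii) for all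
`η, ε > 0` there are `s ∈ good ε` and a unit vector `x` with `M - η ≤ ‖F s x‖`.
Given `R, δ, ε`, put `η = δ / (8 R)`, `r₀ ≤ 1/4` and `ε₁ ≤ 1` so small that
`L * (r₀ + ε₁) ≤ δ / (4 R)`, get `ε₀` from (i), then `ε'` from `clos ε₀ 2 r₀` and `ε''` from
`clos ε 1 (1/(2R))`, and choose `s ∈ good (min ε₁ ε' ε'')`, `x₀` as in (ii) with this `η`.
For `a, b` in the ball of radius `2`: `‖F s a - F s b‖ ≤ (M + η) ‖a - b‖ + δ / (4 R)`: if
`r₀ ≤ ‖a - b‖ ≤ 1` use `resc b ‖a - b‖ (F s)` at the unit vector `(a-b)/‖a-b‖`; if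
`1 < ‖a - b‖ ≤ 4` divide the segment into 4 equal parts; if `‖a - b‖ < r₀` use `lip`.
The answer is `s'` with `F s' = resc ((1/2) • x₀) (1/(2R)) (F s)`:
`F s' (R x₀) - F s' (-R x₀) = 2 R (F s x₀ - F s 0) = 2 R F s x₀`. -/
theorem Sys.ext_line [Nontrivial V] (A : Sys V W S) : ∃ M : ℝ, 0 ≤ M ∧ M ≤ A.L ∧
    (∀ c : ℝ, (∀ ε : ℝ, 0 < ε → ∃ s ∈ A.good ε, ∃ x : V, ‖x‖ = 1 ∧ c ≤ ‖A.F s x‖ + ε) → c ≤ M) ∧
    ∀ R δ ε : ℝ, 1 ≤ R → 0 < δ → 0 < ε → ∃ s ∈ A.good ε, ∃ x₀ : V, ‖x₀‖ = 1 ∧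
      (∀ z z' : V, ‖z‖ ≤ 2 * R → ‖z'‖ ≤ 2 * R → ‖A.F s z - A.F s z'‖ ≤ M * ‖z - z'‖ + δ) ∧
      2 * R * M - δ ≤ ‖A.F s (R • x₀) - A.F s (-(R • x₀))‖ := by
  obtain ⟨x₁, hx₁⟩ : ∃ x : V, ‖x‖ = 1 := by
    obtain ⟨v, hv⟩ := exists_ne (0 : V)
    exact ⟨‖v‖⁻¹ • v, by rw [norm_smul, norm_inv, norm_norm,
      inv_mul_cancel₀ (norm_ne_zero_iff.mpr hv)]⟩
  set P : Set ℝ := {m | ∃ ε : ℝ, 0 < ε ∧ ∀ s ∈ A.good ε, ∀ x : V, ‖x‖ = 1 → ‖A.F s x‖ ≤ m}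
    with hP
  have hL := A.L_pos
  have hlow : ∀ m ∈ P, 0 ≤ m := by
    rintro m ⟨ε, hε, hm⟩
    obtain ⟨s, hs⟩ := A.ne ε hε
    exact le_trans (norm_nonneg _) (hm s hs x₁ hx₁)
  have hLP : ∀ ε : ℝ, 0 < ε → A.L * (1 + ε) ∈ P := by
    intro ε hε
    refine ⟨ε, hε, fun s hs x hx => ?_⟩
    have h1 := A.lip ε hε s hs x 0
    rwa [A.zero ε hε s hs, sub_zero, sub_zero, hx] at h1
  have hbdd : BddBelow P := ⟨0, hlow⟩
  have hne : P.Nonempty := ⟨_, hLP 1 one_pos⟩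
  set M : ℝ := sInf P with hM
  have hM0 : 0 ≤ M := le_csInf hne hlow
  have hML : M ≤ A.L := by
    refine le_of_forall_pos_le_add fun ε hε => ?_
    have h1 := csInf_le hbdd (hLP (ε / A.L) (div_pos hε hL))
    have h2 : A.L * (1 + ε / A.L) = A.L + ε := by field_simp
    rw [h2] at h1
    exact h1
  have hi : ∀ η : ℝ, 0 < η → ∃ ε : ℝ, 0 < ε ∧ ∀ s ∈ A.good ε, ∀ x : V, ‖x‖ = 1 →
      ‖A.F s x‖ ≤ M + η := by
    intro η hη
    obtain ⟨m, ⟨ε, hε, hm⟩, hmM⟩ := exists_lt_of_csInf_lt hne (show sInf P < M + η by linarith)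
    exact ⟨ε, hε, fun s hs x hx => (hm s hs x hx).trans hmM.le⟩
  have hii : ∀ η ε : ℝ, 0 < η → 0 < ε → ∃ s ∈ A.good ε, ∃ x : V, ‖x‖ = 1 ∧
      M - η ≤ ‖A.F s x‖ := by
    intro η ε hη hε
    by_contra hcon
    push Not at hcon
    have : M - η ∈ P := ⟨ε, hε, fun s hs x hx => (hcon s hs x hx).le⟩
    have := csInf_le hbdd this
    linarith
  refine ⟨M, hM0, hML, ?_, ?_⟩
  · intro c hc
    by_contra hcM
    push Not at hcM
    obtain ⟨ε₀, hε₀, h₀⟩ := hi ((c - M) / 3) (by linarith)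
    obtain ⟨s, hs, x, hx, hcx⟩ := hc (min ε₀ ((c - M) / 3)) (lt_min hε₀ (by linarith))
    have h1 := h₀ s (A.mono _ _ (lt_min hε₀ (by linarith)) (min_le_left _ _) hs) x hx
    have h2 : min ε₀ ((c - M) / 3) ≤ (c - M) / 3 := min_le_right _ _
    linarith
  · intro R δ ε hR hδ hε
    have hR0 : 0 < R := by linarith
    set η : ℝ := δ / (8 * R) with hη
    have hηpos : 0 < η := by positivity
    set κ : ℝ := δ / (4 * R) with hκ
    have hκpos : 0 < κ := by positivity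
    set r₀ : ℝ := min (1 / 4) (κ / (2 * A.L)) with hr₀
    have hr₀pos : 0 < r₀ := lt_min (by norm_num) (by positivity)
    have hr₀4 : r₀ ≤ 1 / 4 := min_le_left _ _
    have hr₀L : A.L * r₀ ≤ κ / 2 := by
      have : r₀ ≤ κ / (2 * A.L) := min_le_right _ _
      rw [le_div_iff₀ (by positivity)] at this
      linarith
    obtain ⟨ε₀, hε₀, h₀⟩ := hi η hηpos
    obtain ⟨ε', hε', h'⟩ := A.clos ε₀ 2 r₀ hε₀ hr₀pos
    obtain ⟨ε'', hε'', h''⟩ := A.clos ε 1 (1 / (2 * R)) hε (by positivity)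
    set ε₃ : ℝ := min r₀ (min ε' ε'') with hε₃
    have hε₃pos : 0 < ε₃ := lt_min hr₀pos (lt_min hε' hε'')
    obtain ⟨s, hs, x₀, hx₀, hMx₀⟩ := hii η ε₃ hηpos hε₃pos
    have hs' : s ∈ A.good ε' :=
      A.mono _ _ hε₃pos ((min_le_right _ _).trans (min_le_left _ _)) hs
    have hs'' : s ∈ A.good ε'' :=
      A.mono _ _ hε₃pos ((min_le_right _ _).trans (min_le_right _ _)) hs
    have key : ∀ a b : V, ‖a‖ ≤ 2 → ‖b‖ ≤ 2 →
        ‖A.F s a - A.F s b‖ ≤ (M + η) * ‖a - b‖ + κ := by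
      intro a b ha hb
      refine Ext.unif A (by linarith) hκpos.le hr₀pos hr₀4 ?_ ?_ ha hb
      · intro z hz r hr1 hr2 x hx
        obtain ⟨s₁, hs₁, e₁⟩ := h' s hs' z hz r hr1 hr2
        rw [← e₁]
        exact h₀ s₁ hs₁ x hx
      · intro a b hab
        have h1 := A.lip ε₃ hε₃pos s hs a b
        have h2 : ε₃ ≤ r₀ := min_le_left _ _
        have h3 : A.L * (‖a - b‖ + ε₃) ≤ A.L * (r₀ + r₀) := by gcongr
        linarith
    have hRinv : 1 / (2 * R) ≤ 1 := by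
      rw [div_le_one (by positivity)]
      linarith
    have hz0 : ‖(1 / 2 : ℝ) • x₀‖ = 1 / 2 := by
      rw [norm_smul, hx₀, Real.norm_of_nonneg (by norm_num : (0:ℝ) ≤ 1 / 2), mul_one]
    obtain ⟨s₁, hs₁, e₁⟩ := h'' s hs'' ((1 / 2 : ℝ) • x₀) (by rw [hz0]; norm_num)
      (1 / (2 * R)) le_rfl hRinv
    have hF : ∀ z z' : V, A.F s₁ z - A.F s₁ z' = (2 * R) •
        (A.F s ((1 / 2 : ℝ) • x₀ + (1 / (2 * R)) • z) -
          A.F s ((1 / 2 : ℝ) • x₀ + (1 / (2 * R)) • z')) := by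
      intro z z'
      rw [e₁]
      simp only [resc]
      rw [← smul_sub, one_div, inv_inv]
      congr 1
      abel
    refine ⟨s₁, hs₁, x₀, hx₀, ?_, ?_⟩
    · intro z z' hz hz'
      have hn : ∀ z : V, ‖z‖ ≤ 2 * R → ‖(1 / 2 : ℝ) • x₀ + (1 / (2 * R)) • z‖ ≤ 2 := by
        intro z hz
        refine (norm_add_le _ _).trans ?_
        rw [hz0, norm_smul, Real.norm_of_nonneg (by positivity : (0:ℝ) ≤ 1 / (2 * R))]
        have : 1 / (2 * R) * ‖z‖ ≤ 1 := by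
          rw [one_div, inv_mul_le_iff₀ (by positivity)]
          linarith
        linarith
      have h1 := key _ _ (hn z hz) (hn z' hz')
      rw [hF z z', norm_smul, Real.norm_of_nonneg (by positivity : (0:ℝ) ≤ 2 * R)]
      have e2 : (1 / 2 : ℝ) • x₀ + (1 / (2 * R)) • z - ((1 / 2 : ℝ) • x₀ + (1 / (2 * R)) • z') =
          (1 / (2 * R)) • (z - z') := by
        rw [smul_sub]
        abel
      rw [e2, norm_smul, Real.norm_of_nonneg (by positivity : (0:ℝ) ≤ 1 / (2 * R))] at h1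
      have h2 : ‖z - z'‖ ≤ 4 * R := by
        have := norm_sub_le z z'
        linarith
      have h3 : 2 * R * ((M + η) * (1 / (2 * R) * ‖z - z'‖) + κ) =
          (M + η) * ‖z - z'‖ + δ / 2 := by
        rw [hκ]
        field_simp
        ring
      have h4 : η * ‖z - z'‖ ≤ δ / 2 := by
        calc η * ‖z - z'‖ ≤ η * (4 * R) := by gcongr
          _ = δ / 2 := by
            rw [hη]
            field_simp
            ring
      calc 2 * R * ‖A.F s ((1 / 2 : ℝ) • x₀ + (1 / (2 * R)) • z) -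
            A.F s ((1 / 2 : ℝ) • x₀ + (1 / (2 * R)) • z')‖
          ≤ 2 * R * ((M + η) * (1 / (2 * R) * ‖z - z'‖) + κ) := by gcongr
        _ = (M + η) * ‖z - z'‖ + δ / 2 := h3
        _ ≤ M * ‖z - z'‖ + δ := by nlinarith
    · rw [hF]
      have e3 : (1 / 2 : ℝ) • x₀ + (1 / (2 * R)) • R • x₀ = x₀ := by
        rw [smul_smul, ← add_smul]
        have : (1 / 2 : ℝ) + 1 / (2 * R) * R = 1 := by
          field_simp
          norm_num
        rw [this, one_smul]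
      have e4 : (1 / 2 : ℝ) • x₀ + (1 / (2 * R)) • -(R • x₀) = 0 := by
        rw [smul_neg, smul_smul, ← sub_eq_add_neg, ← sub_smul]
        have : (1 / 2 : ℝ) - 1 / (2 * R) * R = 0 := by
          field_simp
          norm_num
        rw [this, zero_smul]
      rw [e3, e4, A.zero ε₃ hε₃pos s hs, sub_zero, norm_smul,
        Real.norm_of_nonneg (by positivity : (0:ℝ) ≤ 2 * R)]
      have h5 : 2 * R * (M - η) = 2 * R * M - δ / 4 := by
        rw [hη]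
        field_simp
        ring
      have h6 : 2 * R * (M - η) ≤ 2 * R * ‖A.F s x₀‖ := by gcongr
      linarith

end Pool.Agent.CPav
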