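import Pool.Agent.Lib.MP_758516_an.Glob

open Set Filter Topology

namespace Pool.Agent.CPav

variable {V W S X Y : Type*}
  [NormedAddCommGroup V] [NormedSpace ℝ V] [NormedAddCommGroup W] [NormedSpace ℝ W]
  [NormedAddCommGroup X] [NormedSpace ℝ X] [NormedAddCommGroup Y] [NormedSpace ℝ Y]

private theorem ExtendA_aeq_mono {f : V → W} {e : V} {ε ε' : ℝ} (hε : 0 < ε) (h : ε ≤ ε')
    (hf : AEq f e ε) : AEq f e ε' := by
  obtain ⟨y, hy⟩ := hf
  have h1 : ε'⁻¹ ≤ ε⁻¹ := inv_anti₀ hε h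
  exact ⟨y, fun z t hz ht => (hy z t (hz.trans h1) (ht.trans h1)).trans h⟩

/-- JOB ExtendA. The members equivariant in direction `e` form again a system: given
`ε, R, r₀`, let `ε₁` be from `A.clos ε R r₀` and take `ε' ≤ ε₁` with `ε'⁻¹ ≥ R + ε⁻¹`,
`ε' ≤ ε r₀`, `ε' ≤ ε`. Monotonicity: `AEq f e ε` for `ε ≤ ε'` implies `AEq f e ε'`. -/
theorem Sys.exists_extend (A : Sys V W S) (hV : UnifSmooth V) [UniformConvexSpace W] (e : V)
    (c : ℝ) (hc : 0 < c)
    (he : ∀ ε : ℝ, 0 < ε → ∀ s ∈ A.good ε, ∀ t : ℝ, c * |t| ≤ ‖A.F s (t • e)‖ + ε) :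
    ∃ A' : Sys V W S, A'.F = A.F ∧ (∀ ε : ℝ, 0 < ε → A'.good ε ⊆ A.good ε) ∧
      ∀ ε : ℝ, 0 < ε → ∀ s ∈ A'.good ε, AEq (A'.F s) e ε := by
  refine ⟨{ F := A.F
            good := fun ε => {s | s ∈ A.good ε ∧ AEq (A.F s) e ε}
            L := A.L
            L_pos := A.L_pos
            ne := ?_
            mono := ?_
            zero := fun ε hε s hs => A.zero ε hε s hs.1
            lip := fun ε hε s hs => A.lip ε hε s hs.1
            clos := ?_ }, rfl, fun ε _ s hs => hs.1, fun ε _ s hs => hs.2⟩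
  · intro ε hε
    obtain ⟨s, hs, h⟩ := A.exists_aeq hV e c hc he ε hε
    exact ⟨s, hs, h⟩
  · intro ε ε' hε hεε' s hs
    exact ⟨A.mono ε ε' hε hεε' hs.1, ExtendA_aeq_mono hε hεε' hs.2⟩
  · intro ε R r₀ hε hr₀
    obtain ⟨ε₁, hε₁, hcl⟩ := A.clos ε R r₀ hε hr₀
    have hD : 0 < |R| + ε⁻¹ := by positivity
    refine ⟨min ε₁ (min ε (min (ε * r₀) (|R| + ε⁻¹)⁻¹)), by positivity, ?_⟩
    set ε' := min ε₁ (min ε (min (ε * r₀) (|R| + ε⁻¹)⁻¹)) with hε'def
    have hε' : 0 < ε' := by positivity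
    have h1 : ε' ≤ ε₁ := min_le_left _ _
    have h2 : ε' ≤ ε := (min_le_right _ _).trans (min_le_left _ _)
    have h3 : ε' ≤ ε * r₀ := (min_le_right _ _).trans ((min_le_right _ _).trans (min_le_left _ _))
    have h4 : ε' ≤ (|R| + ε⁻¹)⁻¹ :=
      (min_le_right _ _).trans ((min_le_right _ _).trans (min_le_right _ _))
    have h5 : |R| + ε⁻¹ ≤ ε'⁻¹ := by
      rw [le_inv_comm₀ hD hε']
      exact h4
    rintro s ⟨hs, y, hy⟩ z hz r hr hr1
    have hr0 : 0 < r := hr₀.trans_le hr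
    obtain ⟨s', hs', hF⟩ := hcl s (A.mono ε' ε₁ hε' h1 hs) z hz r hr hr1
    refine ⟨s', ⟨hs', y, ?_⟩, hF⟩
    intro z' t hz' ht
    rw [hF]
    have e1 : resc z r (A.F s) (z' + t • e) - resc z r (A.F s) z' - t • y =
        r⁻¹ • (A.F s ((z + r • z') + (r * t) • e) - A.F s (z + r • z') - (r * t) • y) := by
      unfold resc
      rw [smul_add, ← add_assoc, smul_smul, ← smul_sub, smul_sub r⁻¹ _ ((r * t) • y), smul_smul,
        ← mul_assoc, inv_mul_cancel₀ hr0.ne', one_mul]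
      congr 2
      abel
    rw [e1, norm_smul, Real.norm_of_nonneg (inv_nonneg.2 hr0.le)]
    have h6 : ‖z + r • z'‖ ≤ ε'⁻¹ := by
      have h7 : ‖r • z'‖ ≤ ε⁻¹ := by
        rw [norm_smul, Real.norm_of_nonneg hr0.le]
        calc r * ‖z'‖ ≤ 1 * ‖z'‖ := by gcongr
          _ = ‖z'‖ := one_mul _
          _ ≤ ε⁻¹ := hz'
      have h8 := norm_add_le z (r • z')
      have h9 := le_abs_self R
      linarith
    have h7 : |r * t| ≤ ε'⁻¹ := by
      rw [abs_mul, abs_of_pos hr0]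
      have h8 : r * |t| ≤ 1 * |t| := by gcongr
      have h9 := abs_nonneg R
      linarith
    have h8 := hy (z + r • z') (r * t) h6 h7
    calc r⁻¹ * ‖A.F s (z + r • z' + (r * t) • e) - A.F s (z + r • z') - (r * t) • y‖
        ≤ r⁻¹ * ε' := by gcongr
      _ ≤ r⁻¹ * (ε * r₀) := by gcongr
      _ ≤ r⁻¹ * (ε * r) := by gcongr
      _ = ε := by field_simp

end Pool.Agent.CPav
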