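import Pool.Agent.Lib.MP_758516_an.ExtendA

open Set Filter Topology

namespace Pool.Agent.CPav

variable {V W S X Y : Type*}
  [NormedAddCommGroup V] [NormedSpace ℝ V] [NormedAddCommGroup W] [NormedSpace ℝ W]
  [NormedAddCommGroup X] [NormedSpace ℝ X] [NormedAddCommGroup Y] [NormedSpace ℝ Y]

/-- Rebasing and rescaling of a bijection. -/
private noncomputable def ExtendB_resc (f : X ≃ Y) (z : X) (r : ℝ) (hr : r ≠ 0) : X ≃ Y where
  toFun x := r⁻¹ • (f (z + r • x) - f z)
  invFun y := r⁻¹ • (f.symm (f z + r • y) - z)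
  left_inv x := by
    have h1 : f z + r • (r⁻¹ • (f (z + r • x) - f z)) = f (z + r • x) := by
      rw [smul_inv_smul₀ hr]; abel
    show r⁻¹ • (f.symm (f z + r • (r⁻¹ • (f (z + r • x) - f z))) - z) = x
    rw [h1, Equiv.symm_apply_apply, add_sub_cancel_left, inv_smul_smul₀ hr]
  right_inv y := by
    have h1 : z + r • (r⁻¹ • (f.symm (f z + r • y) - z)) = f.symm (f z + r • y) := by
      rw [smul_inv_smul₀ hr]; abel
    show r⁻¹ • (f (z + r • (r⁻¹ • (f.symm (f z + r • y) - z))) - f z) = y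
    rw [h1, Equiv.apply_symm_apply, add_sub_cancel_left, inv_smul_smul₀ hr]

private lemma ExtendB_resc_apply (f : X ≃ Y) (z : X) (r : ℝ) (hr : r ≠ 0) (x : X) :
    ExtendB_resc f z r hr x = r⁻¹ • (f (z + r • x) - f z) := rfl

private lemma ExtendB_coarse (L : ℝ) (hL : 0 < L) (f : X ≃ Y) (z : X) (r r₀ ε : ℝ) (hε : 0 < ε)
    (hr₀ : 0 < r₀) (hr : r₀ ≤ r) (hf : Coarse L (ε * r₀) f) :
    Coarse L ε (ExtendB_resc f z r (hr₀.trans_le hr).ne') := by
  have hrp : 0 < r := hr₀.trans_le hr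
  intro x x'
  obtain ⟨h1, h2⟩ := hf (z + r • x) (z + r • x')
  have e1 : z + r • x - (z + r • x') = r • (x - x') := by rw [smul_sub]; abel
  have e2 : ‖r • (x - x')‖ = r * ‖x - x'‖ := by
    rw [norm_smul, Real.norm_eq_abs, abs_of_pos hrp]
  have e3 : ExtendB_resc f z r hrp.ne' x - ExtendB_resc f z r hrp.ne' x'
      = r⁻¹ • (f (z + r • x) - f (z + r • x')) := by
    rw [ExtendB_resc_apply, ExtendB_resc_apply, ← smul_sub]
    congr 1
    abel
  have e4 : ‖r⁻¹ • (f (z + r • x) - f (z + r • x'))‖ = r⁻¹ * ‖f (z + r • x) - f (z + r • x')‖ := by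
    rw [norm_smul, Real.norm_eq_abs, abs_of_pos (inv_pos.2 hrp)]
  rw [e1, e2] at h1 h2
  rw [e3, e4]
  have h5 : ε * r₀ ≤ ε * r := mul_le_mul_of_nonneg_left hr hε.le
  set N := ‖f (z + r • x) - f (z + r • x')‖ with hN
  have h6 : r * (r⁻¹ * N) = N := by rw [mul_inv_cancel_left₀ hrp.ne']
  constructor
  · have h7 : N ≤ r * (L * (‖x - x'‖ + ε)) := by nlinarith
    rw [← h6] at h7
    exact le_of_mul_le_mul_left h7 hrp
  · have h7 : r * ‖x - x'‖ ≤ r * (L * (r⁻¹ * N + ε)) := by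
      have : r * (L * (r⁻¹ * N + ε)) = L * (r * (r⁻¹ * N) + ε * r) := by ring
      rw [this, h6]
      nlinarith
    exact le_of_mul_le_mul_left h7 hrp

private noncomputable def ExtendB_base (L : ℝ) (hL : 0 < L) (h : CoarseEq X Y L) :
    Sys X Y (X ≃ Y) where
  F f := f
  good ε := {f | f 0 = 0 ∧ Coarse L ε f}
  L := L
  L_pos := hL
  ne ε hε := by
    obtain ⟨f, h0, hf⟩ := h ε hε
    exact ⟨f, h0, hf⟩
  mono ε ε' _ hle f hf := by
    refine ⟨hf.1, fun x x' => ⟨(hf.2 x x').1.trans ?_, (hf.2 x x').2.trans ?_⟩⟩ <;>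
      exact mul_le_mul_of_nonneg_left (by linarith) hL.le
  zero ε _ f hf := hf.1
  lip ε _ f hf x x' := (hf.2 x x').1
  clos ε R r₀ hε hr₀ := by
    refine ⟨ε * r₀, mul_pos hε hr₀, fun f hf z _ r hr _ => ?_⟩
    refine ⟨ExtendB_resc f z r (hr₀.trans_le hr).ne', ⟨?_, ExtendB_coarse L hL f z r r₀ ε hε hr₀ hr hf.2⟩, ?_⟩
    · rw [ExtendB_resc_apply, smul_zero, add_zero, sub_self, smul_zero]
    · funext x
      rw [ExtendB_resc_apply]
      rfl

/-- JOB ExtendB. The system of all coarse bi-Lipschitz bijections, equivariant in finitely many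
given directions: start with `good ε = {f | f 0 = 0 ∧ Coarse L ε f}` (rebasing and rescaling of a
bijection is a bijection) and apply `Sys.exists_extend` for every non-zero member of the list, with
`c = ‖e‖ / L`; for `e = 0` take `y = 0`. -/
theorem exists_Esys (hX : UnifSmooth X) [UniformConvexSpace Y] (L : ℝ) (hL : 0 < L)
    (h : CoarseEq X Y L) (l : List X) :
    ∃ A : Sys X Y (X ≃ Y), (∀ f, A.F f = f) ∧
      (∀ ε : ℝ, 0 < ε → ∀ f ∈ A.good ε, f 0 = 0 ∧ Coarse L ε f) ∧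
      ∀ ε : ℝ, 0 < ε → ∀ f ∈ A.good ε, ∀ e ∈ l, AEq f e ε := by
  induction l with
  | nil =>
    refine ⟨ExtendB_base L hL h, fun f => rfl, fun ε _ f hf => hf, ?_⟩
    intro ε _ f _ e he
    simp at he
  | cons e l ih =>
    obtain ⟨A, hF, hA, hl⟩ := ih
    by_cases he : e = 0
    · refine ⟨A, hF, hA, ?_⟩
      intro ε hε f hf e' he'
      rcases List.mem_cons.1 he' with rfl | h'
      · refine ⟨0, fun z t _ _ => ?_⟩
        rw [he]
        simp [hε.le]
      · exact hl ε hε f hf e' h'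
    · have hc : 0 < ‖e‖ / L := div_pos (norm_pos_iff.2 he) hL
      obtain ⟨A', h1, h2, h3⟩ := A.exists_extend hX e (‖e‖ / L) hc (by
        intro ε hε s hs t
        obtain ⟨h0, hco⟩ := hA ε hε s hs
        have h4 := (hco (t • e) 0).2
        rw [h0, sub_zero, sub_zero, norm_smul, Real.norm_eq_abs] at h4
        rw [hF]
        rw [div_mul_eq_mul_div, div_le_iff₀ hL]
        linarith)
      refine ⟨A', fun f => by rw [h1]; exact hF f, fun ε hε f hf => hA ε hε f (h2 ε hε hf), ?_⟩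
      intro ε hε f hf e' he'
      rcases List.mem_cons.1 he' with rfl | h'
      · have h5 := h3 ε hε f hf
        rw [h1, hF] at h5
        exact h5
      · exact hl ε hε f (h2 ε hε hf) e' h'

end Pool.Agent.CPav
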