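import Pool.Agent.Lib.MP_758516_an.Defs

open Set Filter Topology

namespace Pool.Agent.CPav

variable {X Y : Type*}
  [NormedAddCommGroup X] [NormedSpace ℝ X] [NormedAddCommGroup Y] [NormedSpace ℝ Y]

private theorem FD1_lim {V : Type*} [NormedAddCommGroup V] [NormedSpace ℝ V]
    [FiniteDimensional ℝ V] (U : Ultrafilter ℕ) (A : ℕ → V →ₗ[ℝ] X) (K : ℝ)
    (hK : ∀ n c, ‖A n c‖ ≤ K * ‖c‖) :
    ∃ p : Seminorm ℝ V, (∀ c, Tendsto (fun n => ‖A n c‖) (U : Filter ℕ) (𝓝 (p c))) ∧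
      ∀ δ : ℝ, 0 < δ → ∀ᶠ n in (U : Filter ℕ), ∀ c, |‖A n c‖ - p c| ≤ δ * ‖c‖ := by
  have hex : ∀ c, ∃ l, Tendsto (fun n => ‖A n c‖) (U : Filter ℕ) (𝓝 l) := by
    intro c
    have hU : ((U.map (fun n => ‖A n c‖) : Ultrafilter ℝ) : Filter ℝ) ≤ 𝓟 (Icc 0 (K * ‖c‖)) := by
      rw [Ultrafilter.coe_map, le_principal_iff, mem_map]
      exact univ_mem' fun n => ⟨norm_nonneg _, hK n c⟩
    obtain ⟨l, -, hl⟩ := isCompact_Icc.ultrafilter_le_nhds (U.map (fun n => ‖A n c‖)) hU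
    exact ⟨l, hl⟩
  choose P hP using hex
  have hadd : ∀ x y, P (x + y) ≤ P x + P y := by
    intro x y
    refine le_of_tendsto_of_tendsto' (hP (x + y)) ((hP x).add (hP y)) fun n => ?_
    rw [map_add]
    exact norm_add_le _ _
  have hsmul : ∀ (a : ℝ) (x), P (a • x) = ‖a‖ * P x := by
    intro a x
    refine tendsto_nhds_unique (hP (a • x)) ?_
    have := (hP x).const_mul ‖a‖
    refine this.congr fun n => ?_
    rw [map_smul, norm_smul]
  let p : Seminorm ℝ V := Seminorm.of P hadd hsmul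
  have hp : ∀ c, p c = P c := fun c => rfl
  have hpK : ∀ c, p c ≤ K * ‖c‖ := fun c => le_of_tendsto' (hP c) fun n => hK n c
  refine ⟨p, hP, ?_⟩
  intro δ hδ
  have : ProperSpace V := FiniteDimensional.proper ℝ V
  set K' := max K 1 with hK'
  have hK'1 : 1 ≤ K' := le_max_right _ _
  have hKK' : K ≤ K' := le_max_left _ _
  have hK'0 : 0 < K' := by linarith
  have hr : 0 < δ / (4 * K') := by positivity
  obtain ⟨t, -, htf, hcov⟩ := (isCompact_closedBall (0 : V) 1).finite_cover_balls hr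
  have hev : ∀ᶠ n in (U : Filter ℕ), ∀ c ∈ t, |‖A n c‖ - p c| < δ / 2 := by
    rw [htf.eventually_all]
    intro c _
    have h1 := (hP c).sub_const (P c)
    rw [sub_self] at h1
    have h2 := h1.abs
    rw [abs_zero] at h2
    exact h2.eventually_lt_const (by linarith)
  filter_upwards [hev] with n hn
  have hball : ∀ c, ‖c‖ ≤ 1 → |‖A n c‖ - p c| ≤ δ := by
    intro c hc
    obtain ⟨c', hc't, hc'⟩ := mem_iUnion₂.1 (hcov (mem_closedBall_zero_iff.2 hc))
    rw [Metric.mem_ball, dist_eq_norm] at hc'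
    have e1 := hn c' hc't
    have e2 : |‖A n c‖ - ‖A n c'‖| ≤ K' * ‖c - c'‖ := by
      refine (abs_norm_sub_norm_le _ _).trans ?_
      rw [← map_sub]
      exact (hK n _).trans (mul_le_mul_of_nonneg_right hKK' (norm_nonneg _))
    have e3 : |p c' - p c| ≤ K' * ‖c - c'‖ := by
      rw [abs_sub_comm]
      refine (abs_sub_map_le_sub p c c').trans ?_
      exact (hpK _).trans (mul_le_mul_of_nonneg_right hKK' (norm_nonneg _))
    have e4 : K' * ‖c - c'‖ ≤ δ / 4 := by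
      have := mul_le_mul_of_nonneg_left hc'.le hK'0.le
      refine this.trans (le_of_eq ?_)
      field_simp
    have e5 : ‖A n c‖ - p c = (‖A n c‖ - ‖A n c'‖) + (‖A n c'‖ - p c') + (p c' - p c) := by ring
    rw [e5]
    refine (abs_add_three _ _ _).trans ?_
    linarith
  intro c
  rcases eq_or_ne c 0 with rfl | hc
  · simp
  · have hc0 : 0 < ‖c‖ := norm_pos_iff.2 hc
    have h1 := hball (‖c‖⁻¹ • c) (by
      rw [norm_smul, norm_inv, norm_norm, inv_mul_cancel₀ hc0.ne'])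
    have h2 : ‖A n (‖c‖⁻¹ • c)‖ = ‖c‖⁻¹ * ‖A n c‖ := by
      rw [map_smul, norm_smul, norm_inv, norm_norm]
    have h3 : p (‖c‖⁻¹ • c) = ‖c‖⁻¹ * p c := by
      rw [map_smul_eq_mul, norm_inv, norm_norm]
    rw [h2, h3, ← mul_sub, abs_mul, abs_of_pos (inv_pos.2 hc0), inv_mul_le_iff₀ hc0] at h1
    linarith

/-- The linear map `(a, b) ↦ ∑ aᵢ eᵢ + ∑ bⱼ xⱼ`. -/
private noncomputable def FD1_map {Z : Type*} [NormedAddCommGroup Z] [NormedSpace ℝ Z] {m k : ℕ}
    (e : Fin m → Z) (x : Fin k → Z) : ((Fin m → ℝ) × (Fin k → ℝ)) →ₗ[ℝ] Z where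
  toFun c := ∑ i, c.1 i • e i + ∑ j, c.2 j • x j
  map_add' c d := by
    simp only [Prod.fst_add, Prod.snd_add, Pi.add_apply, add_smul, Finset.sum_add_distrib]
    abel
  map_smul' r c := by
    simp only [Prod.smul_fst, Prod.smul_snd, Pi.smul_apply, smul_eq_mul, mul_smul, smul_add,
      Finset.smul_sum, RingHom.id_apply]

private theorem FD1_map_apply {Z : Type*} [NormedAddCommGroup Z] [NormedSpace ℝ Z] {m k : ℕ}
    (e : Fin m → Z) (x : Fin k → Z) (c : (Fin m → ℝ) × (Fin k → ℝ)) :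
    FD1_map e x c = ∑ i, c.1 i • e i + ∑ j, c.2 j • x j := rfl

private theorem FD1_bound {Z : Type*} [NormedAddCommGroup Z] [NormedSpace ℝ Z] {m k : ℕ}
    (e : Fin m → Z) (x : Fin k → Z) (c : (Fin m → ℝ) × (Fin k → ℝ)) :
    ‖FD1_map e x c‖ ≤ (∑ i, ‖e i‖ + ∑ j, ‖x j‖) * ‖c‖ := by
  rw [FD1_map_apply, add_mul, Finset.sum_mul, Finset.sum_mul]
  refine (norm_add_le _ _).trans (add_le_add ?_ ?_)
  · refine (norm_sum_le _ _).trans (Finset.sum_le_sum fun i _ => ?_)
    rw [norm_smul, mul_comm]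
    refine mul_le_mul_of_nonneg_left ?_ (norm_nonneg _)
    exact (norm_le_pi_norm c.1 i).trans (norm_fst_le c)
  · refine (norm_sum_le _ _).trans (Finset.sum_le_sum fun j _ => ?_)
    rw [norm_smul, mul_comm]
    refine mul_le_mul_of_nonneg_left ?_ (norm_nonneg _)
    exact (norm_le_pi_norm c.2 j).trans (norm_snd_le c)

/-- JOB FD1.
Limit seminorms. Proof of `exists_limit`: for `n : ℕ` use the hypothesis with `ε = 1/(n+1)` to get
`yₙ, xₙ`; the norms `‖A n c‖`, `‖B n c‖` are bounded for every `c` (by the hypothesis and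
homogeneity, `‖yₙ i‖ ≤ L ‖e i‖ + 1`, ...), so the limits along `hyperfilter ℕ` exist
(`Ultrafilter` + compactness of `Icc`); the limits of seminorms are seminorms and
`p ≤ L q`, `q ≤ L p` (by homogeneity every `c` can be scaled into the unit cube).
Instead of an ultrafilter limit at every point one gets uniform convergence on the unit cube for free
in finite dimension; what is needed is: for every `δ > 0` there is ONE pair
`(y, x)` such that `|‖A c‖ - p c| ≤ δ ‖c‖` and `|‖B c‖ - q c| ≤ δ ‖c‖` for all `c`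
(pointwise convergence at a finite `δ'`-net, or equicontinuity, or: convergence at the points
of a finite net and Lipschitz bounds). -/
theorem exists_limit (L : ℝ) (hL : 0 < L) (m k : ℕ) (e : Fin m → X) (v : Fin k → Y)
    (h : ∀ ε : ℝ, 0 < ε → ∃ (y : Fin m → Y) (x : Fin k → X), ∀ (a : Fin m → ℝ) (b : Fin k → ℝ),
      (∀ i, |a i| ≤ 1) → (∀ j, |b j| ≤ 1) →
      ‖∑ i, a i • e i + ∑ j, b j • x j‖ ≤ L * ‖∑ i, a i • y i + ∑ j, b j • v j‖ + ε ∧
      ‖∑ i, a i • y i + ∑ j, b j • v j‖ ≤ L * ‖∑ i, a i • e i + ∑ j, b j • x j‖ + ε) :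
    ∃ p q : Seminorm ℝ ((Fin m → ℝ) × (Fin k → ℝ)),
      (∀ c, p c ≤ L * q c) ∧ (∀ c, q c ≤ L * p c) ∧
      (∀ a, p (a, 0) = ‖∑ i, a i • e i‖) ∧ (∀ b, q (0, b) = ‖∑ j, b j • v j‖) ∧
      ∀ δ : ℝ, 0 < δ → ∃ (y : Fin m → Y) (x : Fin k → X), ∀ (a : Fin m → ℝ) (b : Fin k → ℝ),
        |‖∑ i, a i • e i + ∑ j, b j • x j‖ - p (a, b)| ≤ δ * ‖(a, b)‖ ∧
        |‖∑ i, a i • y i + ∑ j, b j • v j‖ - q (a, b)| ≤ δ * ‖(a, b)‖ := by
  have hpos : ∀ n : ℕ, (0 : ℝ) < 1 / ((n : ℝ) + 1) := fun n => by positivity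
  have hle1 : ∀ n : ℕ, 1 / ((n : ℝ) + 1) ≤ 1 := by
    intro n
    rw [div_le_one (by positivity)]
    have : (0 : ℝ) ≤ n := Nat.cast_nonneg n
    linarith
  choose y x hyx using fun n : ℕ => h (1 / ((n : ℝ) + 1)) (hpos n)
  have hy : ∀ n i, ‖y n i‖ ≤ L * ‖e i‖ + 1 := by
    intro n i
    have h1 := (hyx n (Pi.single i 1) 0 (by
      intro j
      rcases eq_or_ne j i with rfl | hj
      · simp
      · simp [hj]) (by simp)).2
    simp only [Pi.zero_apply, zero_smul, Finset.sum_const_zero, add_zero] at h1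
    rw [Finset.sum_eq_single i (fun j _ hj => by simp [hj]) (by simp),
      Finset.sum_eq_single i (fun j _ hj => by simp [hj]) (by simp)] at h1
    simp only [Pi.single_eq_same, one_smul] at h1
    linarith [hle1 n]
  have hx : ∀ n j, ‖x n j‖ ≤ L * ‖v j‖ + 1 := by
    intro n i
    have h1 := (hyx n 0 (Pi.single i 1) (by simp) (by
      intro j
      rcases eq_or_ne j i with rfl | hj
      · simp
      · simp [hj])).1
    simp only [Pi.zero_apply, zero_smul, Finset.sum_const_zero, zero_add] at h1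
    rw [Finset.sum_eq_single i (fun j _ hj => by simp [hj]) (by simp),
      Finset.sum_eq_single i (fun j _ hj => by simp [hj]) (by simp)] at h1
    simp only [Pi.single_eq_same, one_smul] at h1
    linarith [hle1 n]
  set U : Ultrafilter ℕ := hyperfilter ℕ with hU
  obtain ⟨p, hp1, hp2⟩ := FD1_lim U (fun n => FD1_map e (x n))
    (∑ i, ‖e i‖ + ∑ j, (L * ‖v j‖ + 1)) (fun n c => (FD1_bound _ _ _).trans
      (mul_le_mul_of_nonneg_right (add_le_add le_rfl (Finset.sum_le_sum fun j _ => hx n j))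
        (norm_nonneg _)))
  obtain ⟨q, hq1, hq2⟩ := FD1_lim U (fun n => FD1_map (y n) v)
    (∑ i, (L * ‖e i‖ + 1) + ∑ j, ‖v j‖) (fun n c => (FD1_bound _ _ _).trans
      (mul_le_mul_of_nonneg_right (add_le_add (Finset.sum_le_sum fun j _ => hy n j) le_rfl)
        (norm_nonneg _)))
  have h0 : Tendsto (fun n : ℕ => 1 / ((n : ℝ) + 1)) (U : Filter ℕ) (𝓝 0) :=
    (tendsto_one_div_add_atTop_nhds_zero_nat (𝕜 := ℝ)).mono_left Nat.hyperfilter_le_atTop
  have hcube : ∀ c : (Fin m → ℝ) × (Fin k → ℝ), ‖c‖ ≤ 1 → p c ≤ L * q c ∧ q c ≤ L * p c := by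
    intro c hc
    have hc1 : ∀ i, |c.1 i| ≤ 1 := fun i =>
      ((norm_le_pi_norm c.1 i).trans (norm_fst_le c)).trans hc
    have hc2 : ∀ i, |c.2 i| ≤ 1 := fun i =>
      ((norm_le_pi_norm c.2 i).trans (norm_snd_le c)).trans hc
    constructor
    · have := ((hq1 c).const_mul L).add h0
      rw [add_zero] at this
      exact le_of_tendsto_of_tendsto' (hp1 c) this fun n => (hyx n c.1 c.2 hc1 hc2).1
    · have := ((hp1 c).const_mul L).add h0
      rw [add_zero] at this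
      exact le_of_tendsto_of_tendsto' (hq1 c) this fun n => (hyx n c.1 c.2 hc1 hc2).2
  have hall : ∀ c : (Fin m → ℝ) × (Fin k → ℝ), p c ≤ L * q c ∧ q c ≤ L * p c := by
    intro c
    rcases eq_or_ne c 0 with rfl | hc
    · simp
    · have hc0 : 0 < ‖c‖ := norm_pos_iff.2 hc
      have h1 := hcube (‖c‖⁻¹ • c) (by
        rw [norm_smul, norm_inv, norm_norm, inv_mul_cancel₀ hc0.ne'])
      rw [map_smul_eq_mul, map_smul_eq_mul, norm_inv, norm_norm] at h1
      have hi : 0 < ‖c‖⁻¹ := inv_pos.2 hc0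
      constructor
      · have := h1.1
        rw [mul_left_comm] at this
        exact le_of_mul_le_mul_left this hi
      · have := h1.2
        rw [mul_left_comm] at this
        exact le_of_mul_le_mul_left this hi
  refine ⟨p, q, fun c => (hall c).1, fun c => (hall c).2, ?_, ?_, ?_⟩
  · intro a
    refine tendsto_nhds_unique (hp1 (a, 0)) ?_
    refine tendsto_const_nhds.congr fun n => ?_
    rw [FD1_map_apply]
    simp
  · intro b
    refine tendsto_nhds_unique (hq1 (0, b)) ?_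
    refine tendsto_const_nhds.congr fun n => ?_
    rw [FD1_map_apply]
    simp
  · intro δ hδ
    obtain ⟨n, hn1, hn2⟩ := ((hp2 δ hδ).and (hq2 δ hδ)).exists
    exact ⟨y n, x n, fun a b => ⟨hn1 (a, b), hn2 (a, b)⟩⟩

end Pool.Agent.CPav
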