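import Pool.Agent.Lib.MP_758516_an.Defs

open Set Filter Topology

namespace Pool.Agent.CPav

variable {X Y : Type*}
  [NormedAddCommGroup X] [NormedSpace ℝ X] [NormedAddCommGroup Y] [NormedSpace ℝ Y]

private theorem FD2_kappa {V : Type*} [NormedAddCommGroup V] [NormedSpace ℝ V]
    [FiniteDimensional ℝ V] (p : V → ℝ) (hp : Continuous p)
    (hs : ∀ (c : ℝ) (x : V), 0 ≤ c → p (c • x) = c * p x) (h0 : ∀ x, 0 ≤ p x)
    (U : Submodule ℝ V) (h : ∀ u ∈ U, p u = 0 → u = 0) :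
    ∃ κ : ℝ, 0 < κ ∧ ∀ u ∈ U, κ * ‖u‖ ≤ p u := by
  have hc : IsCompact (Metric.sphere (0 : V) 1 ∩ U) :=
    (isCompact_sphere 0 1).inter_right (Submodule.closed_of_finiteDimensional U)
  rcases (Metric.sphere (0 : V) 1 ∩ (U : Set V)).eq_empty_or_nonempty with he | hne
  · refine ⟨1, one_pos, fun u hu => ?_⟩
    by_cases hu0 : u = 0
    · rw [hu0, norm_zero, mul_zero]
      exact h0 _
    · exfalso
      have hn : ‖u‖ ≠ 0 := norm_ne_zero_iff.2 hu0
      have : ‖u‖⁻¹ • u ∈ Metric.sphere (0 : V) 1 ∩ (U : Set V) := by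
        refine ⟨?_, U.smul_mem _ hu⟩
        rw [mem_sphere_zero_iff_norm, norm_smul, norm_inv, norm_norm, inv_mul_cancel₀ hn]
      rw [he] at this
      exact this
  · obtain ⟨w, hw, hmin⟩ := hc.exists_isMinOn hne hp.continuousOn
    have hw0 : w ≠ 0 := by
      rintro rfl
      have := hw.1
      rw [mem_sphere_zero_iff_norm, norm_zero] at this
      exact zero_ne_one this
    have hpw : 0 < p w := lt_of_le_of_ne (h0 w) (fun e => hw0 (h w hw.2 e.symm))
    refine ⟨p w, hpw, fun u hu => ?_⟩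
    by_cases hu0 : u = 0
    · rw [hu0, norm_zero, mul_zero]
      exact h0 _
    · have hn : 0 < ‖u‖ := norm_pos_iff.2 hu0
      have h1 : ‖u‖⁻¹ • u ∈ Metric.sphere (0 : V) 1 ∩ (U : Set V) := by
        refine ⟨?_, U.smul_mem _ hu⟩
        rw [mem_sphere_zero_iff_norm, norm_smul, norm_inv, norm_norm, inv_mul_cancel₀ hn.ne']
      have h2 : p w ≤ p (‖u‖⁻¹ • u) := hmin h1
      rw [hs _ _ (by positivity), ← div_eq_inv_mul, le_div_iff₀ hn] at h2
      exact h2

/-- The linear map with given values on the basis. -/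
private def FD2_map {m k : ℕ} {Z : Type*} [NormedAddCommGroup Z] [NormedSpace ℝ Z]
    (e : Fin m → Z) (x : Fin k → Z) : ((Fin m → ℝ) × (Fin k → ℝ)) →ₗ[ℝ] Z where
  toFun c := ∑ i, c.1 i • e i + ∑ j, c.2 j • x j
  map_add' a b := by
    simp only [Prod.fst_add, Prod.snd_add, Pi.add_apply, add_smul, Finset.sum_add_distrib]
    abel
  map_smul' r a := by
    simp only [Prod.smul_fst, Prod.smul_snd, Pi.smul_apply, smul_eq_mul, mul_smul,
      ← Finset.smul_sum, smul_add, RingHom.id_apply]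

/-- A seminorm which is close to the norm of a linear map is continuous. -/
private theorem FD2_cont {V Z : Type*} [NormedAddCommGroup V] [NormedSpace ℝ V]
    [FiniteDimensional ℝ V] [NormedAddCommGroup Z] [NormedSpace ℝ Z] (p : Seminorm ℝ V)
    (Φ : V →ₗ[ℝ] Z) (h : ∀ c, |‖Φ c‖ - p c| ≤ 1 * ‖c‖) : Continuous p := by
  have hb : ∀ c, p c ≤ (‖LinearMap.toContinuousLinearMap Φ‖ + 1) * ‖c‖ := by
    intro c
    have h1 := (abs_le.1 (h c)).1
    have h2 := (LinearMap.toContinuousLinearMap Φ).le_opNorm c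
    rw [LinearMap.coe_toContinuousLinearMap'] at h2
    linarith
  have hL : ∀ x y, |p x - p y| ≤ (‖LinearMap.toContinuousLinearMap Φ‖ + 1) * ‖x - y‖ := by
    intro x y
    have h1 : |p x - p y| ≤ p (x - y) := abs_sub_map_le_sub p x y
    exact h1.trans (hb _)
  rw [Metric.continuous_iff]
  intro x ε hε
  have hC : 0 < ‖LinearMap.toContinuousLinearMap Φ‖ + 1 := by positivity
  refine ⟨ε / (‖LinearMap.toContinuousLinearMap Φ‖ + 1), by positivity, fun y hy => ?_⟩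
  rw [Real.dist_eq]
  refine (hL y x).trans_lt ?_
  rw [dist_eq_norm, lt_div_iff₀ hC] at hy
  rw [mul_comm]
  exact hy

/-- JOB FD2. From the limit seminorms to subspaces. Proof: `Z = {c | p c = 0} = {c | q c = 0}` is a
subspace meeting `E₀ = {(a, 0)}` and `F₀ = {(0, b)}` trivially. Choose complements `U ≥ E₀`,
`U' ≥ F₀` of `Z` (modular lattice), and `π : U ≃ U'` along `Z` (`Submodule.quotientEquivOfIsCompl`
twice); `q (π u) = q u` as `π u - u ∈ Z`. On `U` the seminorm `p` is a norm, so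
`p u ≥ κ ‖u‖`, and `q u ≥ κ ‖u‖` on `U'`, for some `κ > 0` (compactness of the sphere). Take `δ`
small (`δ ≤ κ / 4`, ...) and `(y, x)` for this `δ`. `E'` is the image of `U` under
`(a, b) ↦ ∑ a i • e i + ∑ b j • x j` (injective on `U`), `F'` the image of `U'` under
`(a, b) ↦ ∑ a i • y i + ∑ b j • v j`, and `T` is induced by `π`. -/
theorem exists_common (L : ℝ) (hL : 0 < L) (m k : ℕ) (e : Fin m → X) (v : Fin k → Y)
    (he : LinearIndependent ℝ e) (hv : LinearIndependent ℝ v)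
    (p q : Seminorm ℝ ((Fin m → ℝ) × (Fin k → ℝ)))
    (h1 : ∀ c, p c ≤ L * q c) (h2 : ∀ c, q c ≤ L * p c)
    (h3 : ∀ a, p (a, 0) = ‖∑ i, a i • e i‖) (h4 : ∀ b, q (0, b) = ‖∑ j, b j • v j‖)
    (h5 : ∀ δ : ℝ, 0 < δ → ∃ (y : Fin m → Y) (x : Fin k → X), ∀ (a : Fin m → ℝ) (b : Fin k → ℝ),
        |‖∑ i, a i • e i + ∑ j, b j • x j‖ - p (a, b)| ≤ δ * ‖(a, b)‖ ∧
        |‖∑ i, a i • y i + ∑ j, b j • v j‖ - q (a, b)| ≤ δ * ‖(a, b)‖) :
    ∃ (E' : Submodule ℝ X) (F' : Submodule ℝ Y), (∀ i, e i ∈ E') ∧ (∀ j, v j ∈ F') ∧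
      FiniteDimensional ℝ E' ∧ FiniteDimensional ℝ F' ∧ ∃ T : E' ≃L[ℝ] F',
        ‖(T : E' →L[ℝ] F')‖ * ‖(T.symm : F' →L[ℝ] E')‖ ≤ 4 * L ^ 2 := by
  classical
  have hpc : Continuous p := by
    obtain ⟨y, x, hyx⟩ := h5 1 one_pos
    exact FD2_cont p (FD2_map e x) (fun c => (hyx c.1 c.2).1)
  have hqc : Continuous q := by
    obtain ⟨y, x, hyx⟩ := h5 1 one_pos
    exact FD2_cont q (FD2_map y v) (fun c => (hyx c.1 c.2).2)
  have hs : ∀ (p : Seminorm ℝ ((Fin m → ℝ) × (Fin k → ℝ))) (c : ℝ)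
      (x : (Fin m → ℝ) × (Fin k → ℝ)), 0 ≤ c → p (c • x) = c * p x := by
    intro p c x hc
    rw [map_smul_eq_mul, Real.norm_of_nonneg hc]
  have hpq : ∀ c, p c = 0 ↔ q c = 0 := by
    intro c
    constructor
    · intro h
      have := h2 c
      rw [h, mul_zero] at this
      exact le_antisymm this (apply_nonneg q c)
    · intro h
      have := h1 c
      rw [h, mul_zero] at this
      exact le_antisymm this (apply_nonneg p c)
  -- the kernel
  let Z : Submodule ℝ ((Fin m → ℝ) × (Fin k → ℝ)) :=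
    { carrier := {c | p c = 0}
      zero_mem' := map_zero p
      add_mem' := by
        intro a b ha hb
        have ha' : p a = 0 := ha
        have hb' : p b = 0 := hb
        have := map_add_le_add p a b
        rw [ha', hb', add_zero] at this
        exact le_antisymm this (apply_nonneg p _)
      smul_mem' := by
        intro c a ha
        have ha' : p a = 0 := ha
        show p (c • a) = 0
        rw [map_smul_eq_mul, ha', mul_zero] }
  have hZ : ∀ c, c ∈ Z ↔ p c = 0 := fun c => Iff.rfl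
  let E₀ : Submodule ℝ ((Fin m → ℝ) × (Fin k → ℝ)) := LinearMap.range (LinearMap.inl ℝ _ _)
  let F₀ : Submodule ℝ ((Fin m → ℝ) × (Fin k → ℝ)) := LinearMap.range (LinearMap.inr ℝ _ _)
  have hE₀ : Disjoint E₀ Z := by
    rw [Submodule.disjoint_def]
    rintro _ ⟨a, rfl⟩ hz
    rw [hZ] at hz
    have h6 : p (a, 0) = 0 := hz
    rw [h3, norm_eq_zero] at h6
    have h7 : a = 0 := funext fun i => Fintype.linearIndependent_iff.1 he a h6 i
    rw [h7]
    rfl
  have hF₀ : Disjoint F₀ Z := by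
    rw [Submodule.disjoint_def]
    rintro _ ⟨b, rfl⟩ hz
    rw [hZ, hpq] at hz
    have h6 : q (0, b) = 0 := hz
    rw [h4, norm_eq_zero] at h6
    have h7 : b = 0 := funext fun i => Fintype.linearIndependent_iff.1 hv b h6 i
    rw [h7]
    rfl
  obtain ⟨U, hEU, hU⟩ := hE₀.exists_isCompl
  obtain ⟨U', hFU, hU'⟩ := hF₀.exists_isCompl
  let π : U ≃ₗ[ℝ] U' := (Submodule.quotientEquivOfIsCompl Z U hU.symm).symm ≪≫ₗ
    Submodule.quotientEquivOfIsCompl Z U' hU'.symm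
  have hπ : ∀ u : U, ((π u : (Fin m → ℝ) × (Fin k → ℝ)) - u) ∈ Z := by
    intro u
    have h6 := Submodule.mk_quotientEquivOfIsCompl_apply hU'.symm
      ((Submodule.quotientEquivOfIsCompl Z U hU.symm).symm u)
    have h7 := Submodule.mk_quotientEquivOfIsCompl_apply hU.symm
      ((Submodule.quotientEquivOfIsCompl Z U hU.symm).symm u)
    rw [LinearEquiv.apply_symm_apply] at h7
    have h8 : (Submodule.Quotient.mk (π u : (Fin m → ℝ) × (Fin k → ℝ)) : _ ⧸ Z) =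
        Submodule.Quotient.mk (u : (Fin m → ℝ) × (Fin k → ℝ)) := h6.trans h7.symm
    exact (Submodule.Quotient.eq Z).1 h8
  have hqπ : ∀ u : U, q (π u : (Fin m → ℝ) × (Fin k → ℝ)) = q (u : (Fin m → ℝ) × (Fin k → ℝ)) := by
    intro u
    have h6 : q ((π u : (Fin m → ℝ) × (Fin k → ℝ)) - u) = 0 := (hpq _).1 (hπ u)
    have h7 := abs_sub_map_le_sub q (π u : (Fin m → ℝ) × (Fin k → ℝ)) u
    rw [h6] at h7
    have h8 := abs_nonpos_iff.1 h7
    linarith
  have hUp : ∀ u ∈ U, p u = 0 → u = 0 := by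
    intro u hu h6
    exact (Submodule.disjoint_def.1 hU.disjoint) u hu h6
  have hUq : ∀ u ∈ U', q u = 0 → u = 0 := by
    intro u hu h6
    exact (Submodule.disjoint_def.1 hU'.disjoint) u hu ((hpq u).2 h6)
  obtain ⟨κ₁, hκ₁, hκ₁'⟩ := FD2_kappa (fun c => p c) hpc (hs p) (fun c => apply_nonneg p c) U hUp
  obtain ⟨κ₂, hκ₂, hκ₂'⟩ := FD2_kappa (fun c => q c) hqc (hs q) (fun c => apply_nonneg q c) U' hUq
  obtain ⟨y, x, hyx⟩ := h5 (min κ₁ κ₂ / 3) (by positivity)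
  have bX : ∀ u ∈ U, (2 / 3) * p u ≤ ‖FD2_map e x u‖ ∧ ‖FD2_map e x u‖ ≤ (4 / 3) * p u := by
    intro u hu
    have h6 : |‖FD2_map e x u‖ - p u| ≤ min κ₁ κ₂ / 3 * ‖u‖ := (hyx u.1 u.2).1
    have h7 : min κ₁ κ₂ / 3 * ‖u‖ ≤ (1 / 3) * p u := by
      have h8 := hκ₁' u hu
      have h9 : min κ₁ κ₂ * ‖u‖ ≤ κ₁ * ‖u‖ := by gcongr; exact min_le_left _ _
      have h10 : κ₁ * ‖u‖ ≤ p u := h8
      linarith
    have h8 := abs_le.1 (h6.trans h7)
    constructor <;> linarith [h8.1, h8.2]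
  have bY : ∀ u ∈ U', (2 / 3) * q u ≤ ‖FD2_map y v u‖ ∧ ‖FD2_map y v u‖ ≤ (4 / 3) * q u := by
    intro u hu
    have h6 : |‖FD2_map y v u‖ - q u| ≤ min κ₁ κ₂ / 3 * ‖u‖ := (hyx u.1 u.2).2
    have h7 : min κ₁ κ₂ / 3 * ‖u‖ ≤ (1 / 3) * q u := by
      have h8 := hκ₂' u hu
      have h9 : min κ₁ κ₂ * ‖u‖ ≤ κ₂ * ‖u‖ := by gcongr; exact min_le_right _ _
      have h10 : κ₂ * ‖u‖ ≤ q u := h8
      linarith
    have h8 := abs_le.1 (h6.trans h7)
    constructor <;> linarith [h8.1, h8.2]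
  let Φ : U →ₗ[ℝ] X := (FD2_map e x).comp U.subtype
  let Ψ : U' →ₗ[ℝ] Y := (FD2_map y v).comp U'.subtype
  have hΦ : Function.Injective Φ := by
    rw [injective_iff_map_eq_zero]
    intro u hu
    have h6 : ‖FD2_map e x u‖ = 0 := by
      rw [norm_eq_zero]
      exact hu
    have h7 := (bX u u.2).1
    rw [h6] at h7
    have h8 := apply_nonneg p (u : (Fin m → ℝ) × (Fin k → ℝ))
    exact Subtype.ext (hUp u u.2 (by linarith))
  have hΨ : Function.Injective Ψ := by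
    rw [injective_iff_map_eq_zero]
    intro u hu
    have h6 : ‖FD2_map y v u‖ = 0 := by
      rw [norm_eq_zero]
      exact hu
    have h7 := (bY u u.2).1
    rw [h6] at h7
    have h8 := apply_nonneg q (u : (Fin m → ℝ) × (Fin k → ℝ))
    exact Subtype.ext (hUq u u.2 (by linarith))
  let T₀ : LinearMap.range Φ ≃ₗ[ℝ] LinearMap.range Ψ :=
    (LinearEquiv.ofInjective Φ hΦ).symm ≪≫ₗ π ≪≫ₗ LinearEquiv.ofInjective Ψ hΨ
  let T : LinearMap.range Φ ≃L[ℝ] LinearMap.range Ψ := T₀.toContinuousLinearEquiv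
  have hT : ∀ u : U, ((T (LinearEquiv.ofInjective Φ hΦ u) : LinearMap.range Ψ) : Y) =
      FD2_map y v (π u) := by
    intro u
    show ((T₀ (LinearEquiv.ofInjective Φ hΦ u) : LinearMap.range Ψ) : Y) = _
    simp only [T₀, LinearEquiv.trans_apply, LinearEquiv.symm_apply_apply]
    rfl
  have hnΦ : ∀ u : U, ‖LinearEquiv.ofInjective Φ hΦ u‖ = ‖FD2_map e x u‖ := fun u => rfl
  have hcomp1 : ∀ u : U, ‖FD2_map y v (π u)‖ ≤ 2 * L * ‖FD2_map e x u‖ := by
    intro u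
    have g1 := (bY (π u) (π u).2).2
    rw [hqπ] at g1
    have g2 := h2 (u : (Fin m → ℝ) × (Fin k → ℝ))
    have g3 := (bX u u.2).1
    have g4 : L * ((2 / 3) * p (u : (Fin m → ℝ) × (Fin k → ℝ))) ≤ L * ‖FD2_map e x u‖ := by
      gcongr
    linarith
  have hcomp2 : ∀ u : U, ‖FD2_map e x u‖ ≤ 2 * L * ‖FD2_map y v (π u)‖ := by
    intro u
    have g1 := (bX u u.2).2
    have g2 := h1 (u : (Fin m → ℝ) × (Fin k → ℝ))
    have g3 := (bY (π u) (π u).2).1
    rw [hqπ] at g3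
    have g4 : L * ((2 / 3) * q (u : (Fin m → ℝ) × (Fin k → ℝ))) ≤ L * ‖FD2_map y v (π u)‖ := by
      gcongr
    linarith
  refine ⟨LinearMap.range Φ, LinearMap.range Ψ, ?_, ?_, inferInstance, inferInstance, T, ?_⟩
  · intro i
    refine ⟨⟨(Pi.single i 1, 0), hEU ⟨Pi.single i 1, rfl⟩⟩, ?_⟩
    show ∑ i', (Pi.single i (1 : ℝ) : Fin m → ℝ) i' • e i' + ∑ j, (0 : Fin k → ℝ) j • x j = e i
    rw [Finset.sum_eq_single i]
    · simp
    · intro i' _ hi'
      rw [Pi.single_eq_of_ne hi', zero_smul]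
    · intro h
      exact absurd (Finset.mem_univ i) h
  · intro j
    refine ⟨⟨(0, Pi.single j 1), hFU ⟨Pi.single j 1, rfl⟩⟩, ?_⟩
    show ∑ i', (0 : Fin m → ℝ) i' • y i' + ∑ j', (Pi.single j (1 : ℝ) : Fin k → ℝ) j' • v j' = v j
    rw [Finset.sum_eq_single j]
    · simp
    · intro i' _ hi'
      rw [Pi.single_eq_of_ne hi', zero_smul]
    · intro h
      exact absurd (Finset.mem_univ j) h
  · have n1 : ‖(T : LinearMap.range Φ →L[ℝ] LinearMap.range Ψ)‖ ≤ 2 * L := by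
      refine ContinuousLinearMap.opNorm_le_bound _ (by positivity) ?_
      intro w
      obtain ⟨u, rfl⟩ := (LinearEquiv.ofInjective Φ hΦ).surjective w
      have g1 : ‖T (LinearEquiv.ofInjective Φ hΦ u)‖ = ‖FD2_map y v (π u)‖ := by
        rw [← hT u]
        rfl
      rw [ContinuousLinearEquiv.coe_coe, g1, hnΦ]
      exact hcomp1 u
    have n2 : ‖(T.symm : LinearMap.range Ψ →L[ℝ] LinearMap.range Φ)‖ ≤ 2 * L := by
      refine ContinuousLinearMap.opNorm_le_bound _ (by positivity) ?_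
      intro w
      obtain ⟨w', rfl⟩ := T.surjective w
      obtain ⟨u, rfl⟩ := (LinearEquiv.ofInjective Φ hΦ).surjective w'
      have g1 : ‖T (LinearEquiv.ofInjective Φ hΦ u)‖ = ‖FD2_map y v (π u)‖ := by
        rw [← hT u]
        rfl
      rw [ContinuousLinearEquiv.coe_coe, ContinuousLinearEquiv.symm_apply_apply, g1, hnΦ]
      exact hcomp2 u
    calc ‖(T : LinearMap.range Φ →L[ℝ] LinearMap.range Ψ)‖ *
          ‖(T.symm : LinearMap.range Ψ →L[ℝ] LinearMap.range Φ)‖ ≤ (2 * L) * (2 * L) := by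
          gcongr
      _ = 4 * L ^ 2 := by ring

end Pool.Agent.CPav
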