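import Pool.Agent.Lib.MP_758516_an.Defs

open Set Filter Topology

namespace Pool.Agent.CPav

/-- JOB FSysA. Euclidean spaces are uniformly smooth
(`‖x + y‖ + ‖x - y‖ ≤ 2 √(‖x‖² + ‖y‖²) ≤ 2 + ‖y‖²` if `‖x‖ = 1`, parallelogram law). -/
theorem unifSmooth_euclidean (k : ℕ) : UnifSmooth (EuclideanSpace ℝ (Fin k)) := by
  intro ε hε
  refine ⟨ε, hε, fun x y hx hy => ?_⟩
  have h1 := parallelogram_law_with_norm ℝ x y
  rw [hx] at h1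
  have h2 : ‖x + y‖ + ‖x - y‖ ≤ 2 + ‖y‖ ^ 2 := by
    nlinarith [norm_nonneg (x + y), norm_nonneg (x - y), norm_nonneg y,
      sq_nonneg (‖x + y‖ - ‖x - y‖), sq_nonneg (‖y‖ ^ 2)]
  have h3 : ‖y‖ ^ 2 ≤ ε * ‖y‖ := by
    nlinarith [norm_nonneg y]
  linarith

end Pool.Agent.CPav
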