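import Pool.Agent.Lib.MP_758516_an.ExtendB
import Pool.Agent.Lib.MP_758516_an.FSysA

open Set Filter Topology

namespace Pool.Agent.CPav

variable {X Y X₁ : Type*}
  [NormedAddCommGroup X] [NormedSpace ℝ X] [NormedAddCommGroup Y] [NormedSpace ℝ Y]
  [NormedAddCommGroup X₁] [NormedSpace ℝ X₁]

/-- The system of the inverse maps on a finite-dimensional space. -/
private noncomputable def FSysB_sys {V : Type*} [NormedAddCommGroup V] [NormedSpace ℝ V]
    (A₁ : X ≃L[ℝ] X₁) (L : ℝ) (hL : 0 < L)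
    (A : Sys X Y (X ≃ Y)) (hA : ∀ f, A.F f = f)
    (hA' : ∀ ε : ℝ, 0 < ε → ∀ f ∈ A.good ε, f 0 = 0 ∧ Coarse L ε f)
    (φ : V →L[ℝ] Y) : Sys V X₁ (X ≃ Y) where
  F := fun f b => A₁ (f.symm (φ b))
  good := A.good
  L := (‖(A₁ : X →L[ℝ] X₁)‖ + 1) * (L * (‖φ‖ + 1))
  L_pos := by positivity
  ne := A.ne
  mono := A.mono
  zero := by
    intro ε hε f hf
    have h0 := (hA' ε hε f hf).1
    have h1 : f.symm 0 = 0 := by rw [Equiv.symm_apply_eq, h0]
    simp only [map_zero, h1]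
  lip := by
    intro ε hε f hf x x'
    have h1 := ((hA' ε hε f hf).2 (f.symm (φ x)) (f.symm (φ x'))).2
    rw [Equiv.apply_symm_apply, Equiv.apply_symm_apply, ← map_sub φ] at h1
    have h2 : ‖φ (x - x')‖ ≤ ‖φ‖ * ‖x - x'‖ := φ.le_opNorm _
    have h3 : ‖A₁ (f.symm (φ x)) - A₁ (f.symm (φ x'))‖ ≤
        ‖(A₁ : X →L[ℝ] X₁)‖ * ‖f.symm (φ x) - f.symm (φ x')‖ := by
      rw [← map_sub A₁]
      exact (A₁ : X →L[ℝ] X₁).le_opNorm _
    have hn : 0 ≤ ‖x - x'‖ := norm_nonneg _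
    have hφ : 0 ≤ ‖φ‖ := norm_nonneg _
    have hA1 : 0 ≤ ‖(A₁ : X →L[ℝ] X₁)‖ := norm_nonneg _
    have h4 : ‖φ (x - x')‖ + ε ≤ (‖φ‖ + 1) * (‖x - x'‖ + ε) := by
      nlinarith [mul_nonneg hφ hε.le]
    calc ‖A₁ (f.symm (φ x)) - A₁ (f.symm (φ x'))‖
        ≤ ‖(A₁ : X →L[ℝ] X₁)‖ * ‖f.symm (φ x) - f.symm (φ x')‖ := h3
      _ ≤ (‖(A₁ : X →L[ℝ] X₁)‖ + 1) * ‖f.symm (φ x) - f.symm (φ x')‖ := by
          gcongr; linarith
      _ ≤ (‖(A₁ : X →L[ℝ] X₁)‖ + 1) * (L * (‖φ (x - x')‖ + ε)) := by gcongr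
      _ ≤ (‖(A₁ : X →L[ℝ] X₁)‖ + 1) * (L * ((‖φ‖ + 1) * (‖x - x'‖ + ε))) := by gcongr
      _ = (‖(A₁ : X →L[ℝ] X₁)‖ + 1) * (L * (‖φ‖ + 1)) * (‖x - x'‖ + ε) := by ring
  clos := by
    intro ε R r₀ hε hr₀
    obtain ⟨ε₁, hε₁, h⟩ := A.clos ε (L * (‖φ‖ * |R| + 1)) r₀ hε hr₀
    refine ⟨min 1 ε₁, lt_min one_pos hε₁, ?_⟩
    intro f hf b₀ hb₀ r hr hr1
    have hf1 : f ∈ A.good ε₁ := A.mono _ _ (lt_min one_pos hε₁) (min_le_right _ _) hf
    have hf2 := hA' _ (lt_min one_pos hε₁) f hf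
    have hz : ‖f.symm (φ b₀)‖ ≤ L * (‖φ‖ * |R| + 1) := by
      have h1 := (hf2.2 (f.symm (φ b₀)) 0).2
      rw [Equiv.apply_symm_apply, hf2.1, sub_zero, sub_zero] at h1
      refine h1.trans ?_
      have h2 : ‖φ b₀‖ ≤ ‖φ‖ * |R| :=
        (φ.le_opNorm _).trans (by gcongr; exact hb₀.trans (le_abs_self _))
      have h3 : min 1 ε₁ ≤ 1 := min_le_left _ _
      gcongr
    obtain ⟨f', hf', hff⟩ := h f hf1 (f.symm (φ b₀)) hz r hr hr1
    refine ⟨f', hf', ?_⟩
    rw [hA, hA] at hff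
    have hr0 : r ≠ 0 := (hr₀.trans_le hr).ne'
    have key : ∀ y : Y, f'.symm y = r⁻¹ • (f.symm (φ b₀ + r • y) - f.symm (φ b₀)) := by
      intro y
      rw [Equiv.symm_apply_eq]
      have h1 := congrFun hff (r⁻¹ • (f.symm (φ b₀ + r • y) - f.symm (φ b₀)))
      rw [h1]
      unfold resc
      rw [smul_inv_smul₀ hr0, add_sub_cancel, Equiv.apply_symm_apply, Equiv.apply_symm_apply,
        add_sub_cancel_left, inv_smul_smul₀ hr0]
    funext b
    show A₁ (f'.symm (φ b)) =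
      r⁻¹ • (A₁ (f.symm (φ (b₀ + r • b))) - A₁ (f.symm (φ b₀)))
    rw [key, map_smul A₁, map_sub A₁, map_add φ, map_smul φ]

/-- JOB FSysB. Linearisation of the inverse maps on the span of `v`.

Proof. The maps `b ↦ A₁ (f.symm (∑ j, b j • v j))` from `EuclideanSpace ℝ (Fin k)` to `X₁`, indexed
by `f`, with the same `good` sets, form a system: closure under `resc` at `b₀` with factor `r`
corresponds to `resc` of `f` at the point `f.symm (∑ j, b₀ j • v j)` (use `A.clos` with a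
larger radius; note that `F` determines `f` as `A.F f = f`). Extend it by `Sys.exists_extend`
successively for the basis vectors `EuclideanSpace.single j 1` (lower bound: `Coarse` and
`v j ≠ 0`), and then use the sum over `j` (at most `k` steps inside a ball of radius `k`; take
a smaller `ε`); `x j = A₁.symm (y j)`. -/
theorem exists_Flin [UniformConvexSpace X₁] (A₁ : X ≃L[ℝ] X₁) (L : ℝ) (hL : 0 < L)
    (A : Sys X Y (X ≃ Y)) (hA : ∀ f, A.F f = f)
    (hA' : ∀ ε : ℝ, 0 < ε → ∀ f ∈ A.good ε, f 0 = 0 ∧ Coarse L ε f)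
    (k : ℕ) (v : Fin k → Y) (hv : LinearIndependent ℝ v) :
    ∀ ε : ℝ, 0 < ε → ∃ f ∈ A.good ε, ∃ x : Fin k → X, ∀ b : Fin k → ℝ, (∀ j, |b j| ≤ 1) →
      ‖f.symm (∑ j, b j • v j) - ∑ j, b j • x j‖ ≤ ε := by
  classical
  let φl : EuclideanSpace ℝ (Fin k) →ₗ[ℝ] Y :=
    { toFun := fun b => ∑ j, b j • v j
      map_add' := by
        intro a b
        simp only [PiLp.add_apply, add_smul, Finset.sum_add_distrib]
      map_smul' := by
        intro c a
        simp only [PiLp.smul_apply, smul_eq_mul, mul_smul, Finset.smul_sum, RingHom.id_apply] }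
  let φ : EuclideanSpace ℝ (Fin k) →L[ℝ] Y := LinearMap.toContinuousLinearMap φl
  have hφ : ∀ b : EuclideanSpace ℝ (Fin k), φ b = ∑ j, b j • v j := fun b => rfl
  let e : Fin k → EuclideanSpace ℝ (Fin k) := fun j => EuclideanSpace.single j 1
  have hφe : ∀ j, φ (e j) = v j := by
    intro j
    rw [hφ, Finset.sum_eq_single j]
    · simp [e]
    · intro i _ hij
      simp [e, hij]
    · intro h
      exact absurd (Finset.mem_univ j) h
  let B := FSysB_sys A₁ L hL A hA hA' φ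
  have hBF : ∀ f b, B.F f b = A₁ (f.symm (φ b)) := fun _ _ => rfl
  set K : ℝ := ‖(A₁.symm : X₁ →L[ℝ] X)‖ with hK
  have hK0 : 0 ≤ K := norm_nonneg _
  have hAsymm : ∀ x : X, ‖x‖ ≤ K * ‖A₁ x‖ := by
    intro x
    have h1 := (A₁.symm : X₁ →L[ℝ] X).le_opNorm (A₁ x)
    simpa using h1
  have hlow : ∀ j, ∀ ε : ℝ, 0 < ε → ∀ f ∈ A.good ε, ∀ t : ℝ,
      (‖v j‖ / (L * (K + 1))) * |t| ≤ ‖B.F f (t • e j)‖ + ε := by
    intro j ε hε f hf t
    rw [hBF, map_smul, hφe]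
    obtain ⟨h0, h1⟩ := hA' ε hε f hf
    have h2 := (h1 (f.symm (t • v j)) 0).1
    rw [Equiv.apply_symm_apply, h0, sub_zero, sub_zero, norm_smul, Real.norm_eq_abs] at h2
    have h3 := hAsymm (f.symm (t • v j))
    have h4 : 0 ≤ ‖A₁ (f.symm (t • v j))‖ := norm_nonneg _
    rw [div_mul_eq_mul_div, div_le_iff₀ (by positivity)]
    have h5 : ‖f.symm (t • v j)‖ + ε ≤ (K + 1) * (‖A₁ (f.symm (t • v j))‖ + ε) := by
      nlinarith [mul_nonneg hK0 hε.le]
    calc ‖v j‖ * |t| = |t| * ‖v j‖ := mul_comm _ _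
      _ ≤ L * (‖f.symm (t • v j)‖ + ε) := h2
      _ ≤ L * ((K + 1) * (‖A₁ (f.symm (t • v j))‖ + ε)) := by gcongr
      _ = (‖A₁ (f.symm (t • v j))‖ + ε) * (L * (K + 1)) := by ring
  have hext : ∀ s : Finset (Fin k), ∃ A' : Sys (EuclideanSpace ℝ (Fin k)) X₁ (X ≃ Y),
      A'.F = B.F ∧ (∀ ε : ℝ, 0 < ε → A'.good ε ⊆ A.good ε) ∧
      ∀ ε : ℝ, 0 < ε → ∀ f ∈ A'.good ε, ∀ j ∈ s, AEq (A'.F f) (e j) ε := by
    intro s
    induction s using Finset.induction_on with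
    | empty =>
      exact ⟨B, rfl, fun _ _ => Subset.rfl, fun _ _ _ _ j hj => absurd hj (Finset.notMem_empty j)⟩
    | insert j s hj ih =>
      obtain ⟨A', h1, h2, h3⟩ := ih
      have hc : 0 < ‖v j‖ / (L * (K + 1)) := by
        have : 0 < ‖v j‖ := norm_pos_iff.2 (hv.ne_zero j)
        positivity
      obtain ⟨A'', g1, g2, g3⟩ := A'.exists_extend (unifSmooth_euclidean k) (e j) _ hc
        (fun ε hε f hf t => by
          rw [h1]
          exact hlow j ε hε f (h2 ε hε hf) t)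
      refine ⟨A'', g1.trans h1, fun ε hε => (g2 ε hε).trans (h2 ε hε), ?_⟩
      intro ε hε f hf i hi
      rcases Finset.mem_insert.1 hi with rfl | hi
      · exact g3 ε hε f hf
      · rw [g1]
        exact h3 ε hε f (g2 ε hε hf) i hi
  obtain ⟨A', h1, h2, h3⟩ := hext Finset.univ
  intro ε hε
  set ε' : ℝ := min ε (min ((k : ℝ) + 1)⁻¹ (ε / ((K + 1) * ((k : ℝ) + 1)))) with hε'
  have hk0 : (0 : ℝ) ≤ k := Nat.cast_nonneg k
  have hε'0 : 0 < ε' := by
    refine lt_min hε (lt_min ?_ ?_) <;> positivity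
  have he1 : ε' ≤ ε := min_le_left _ _
  have he2 : ε' ≤ ((k : ℝ) + 1)⁻¹ := (min_le_right _ _).trans (min_le_left _ _)
  have he3 : ε' ≤ ε / ((K + 1) * ((k : ℝ) + 1)) := (min_le_right _ _).trans (min_le_right _ _)
  have he2' : (k : ℝ) + 1 ≤ ε'⁻¹ := by
    rw [le_inv_comm₀ (by positivity) hε'0]
    exact he2
  obtain ⟨f, hf⟩ := A'.ne ε' hε'0
  have hfA : f ∈ A.good ε' := h2 ε' hε'0 hf
  choose y hy using fun j => h3 ε' hε'0 f hf j (Finset.mem_univ j)
  refine ⟨f, A.mono _ _ hε'0 he1 hfA, fun j => A₁.symm (y j), ?_⟩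
  intro b hb
  have hne : ∀ j, ‖e j‖ = 1 := by
    intro j
    simp [e]
  have hpart : ∀ s : Finset (Fin k), ‖∑ j ∈ s, b j • e j‖ ≤ (s.card : ℝ) := by
    intro s
    refine (norm_sum_le _ _).trans ?_
    have : ∀ j ∈ s, ‖b j • e j‖ ≤ 1 := by
      intro j _
      rw [norm_smul, hne, mul_one]
      exact hb j
    refine (Finset.sum_le_sum this).trans ?_
    simp
  have hsum : ∀ s : Finset (Fin k),
      ‖B.F f (∑ j ∈ s, b j • e j) - ∑ j ∈ s, b j • y j‖ ≤ s.card * ε' := by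
    intro s
    induction s using Finset.induction_on with
    | empty =>
      have h0 := B.zero ε' hε'0 f hfA
      simp [h0]
    | insert j s hj ih =>
      rw [Finset.sum_insert hj, Finset.sum_insert hj, Finset.card_insert_of_notMem hj]
      have h5 := hy j (∑ j ∈ s, b j • e j) (b j) ?_ ?_
      · rw [h1] at h5
        have h6 : B.F f (b j • e j + ∑ j ∈ s, b j • e j) - (b j • y j + ∑ j ∈ s, b j • y j) =
            (B.F f (∑ j ∈ s, b j • e j + b j • e j) - B.F f (∑ j ∈ s, b j • e j) - b j • y j) +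
            (B.F f (∑ j ∈ s, b j • e j) - ∑ j ∈ s, b j • y j) := by
          rw [add_comm (b j • e j)]
          abel
        rw [h6]
        push_cast
        calc _ ≤ ε' + s.card * ε' := (norm_add_le _ _).trans (add_le_add h5 ih)
          _ = (s.card + 1) * ε' := by ring
      · refine (hpart s).trans (le_trans ?_ he2')
        have : s.card ≤ k := by simpa using Finset.card_le_univ s
        have : (s.card : ℝ) ≤ k := by exact_mod_cast this
        linarith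
      · refine (hb j).trans (le_trans ?_ he2')
        linarith
  have hfin := hsum Finset.univ
  rw [Finset.card_univ, Fintype.card_fin] at hfin
  have h7 : φ (∑ j, b j • e j) = ∑ j, b j • v j := by
    rw [map_sum]
    refine Finset.sum_congr rfl (fun j _ => ?_)
    rw [map_smul, hφe]
  rw [hBF, h7] at hfin
  have h8 : f.symm (∑ j, b j • v j) - ∑ j, b j • A₁.symm (y j) =
      A₁.symm (A₁ (f.symm (∑ j, b j • v j)) - ∑ j, b j • y j) := by
    rw [map_sub A₁.symm, map_sum A₁.symm, ContinuousLinearEquiv.symm_apply_apply]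
    congr 1
    refine Finset.sum_congr rfl (fun j _ => ?_)
    rw [map_smul A₁.symm]
  rw [h8]
  have h9 := (A₁.symm : X₁ →L[ℝ] X).le_opNorm
    (A₁ (f.symm (∑ j, b j • v j)) - ∑ j, b j • y j)
  refine h9.trans ?_
  rw [← hK]
  calc K * ‖A₁ (f.symm (∑ j, b j • v j)) - ∑ j, b j • y j‖ ≤ K * (k * ε') := by gcongr
    _ ≤ (K + 1) * (((k : ℝ) + 1) * ε') := by gcongr <;> linarith
    _ ≤ (K + 1) * (((k : ℝ) + 1) * (ε / ((K + 1) * ((k : ℝ) + 1)))) := by gcongr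
    _ = ε := by field_simp

end Pool.Agent.CPav
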