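import Pool.Agent.Lib.MP_758516_an.Defs

open Set Filter Topology

namespace Pool.Agent.CPav

variable {V W : Type*}
  [NormedAddCommGroup V] [NormedSpace ℝ V] [NormedAddCommGroup W] [NormedSpace ℝ W]

/-- Rescaled form of uniform smoothness. -/
private lemma line_smooth {εs δs : ℝ}
    (hs : ∀ x y : V, ‖x‖ = 1 → ‖y‖ ≤ δs → ‖x + y‖ + ‖x - y‖ ≤ 2 + εs * ‖y‖)
    (x₀ z : V) (Q : ℝ) (hQ : 0 < Q) (hx : ‖x₀‖ = 1) (hz : ‖z‖ ≤ δs * Q) :
    ‖z + Q • x₀‖ + ‖Q • x₀ - z‖ ≤ 2 * Q + εs * ‖z‖ := by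
  have h1 := hs x₀ (Q⁻¹ • z) hx (by
    rw [norm_smul, Real.norm_of_nonneg (inv_nonneg.2 hQ.le), inv_mul_le_iff₀ hQ]
    linarith [mul_comm δs Q])
  have e1 : z + Q • x₀ = Q • (x₀ + Q⁻¹ • z) := by
    rw [smul_add, smul_smul, mul_inv_cancel₀ hQ.ne', one_smul, add_comm]
  have e2 : Q • x₀ - z = Q • (x₀ - Q⁻¹ • z) := by
    rw [smul_sub, smul_smul, mul_inv_cancel₀ hQ.ne', one_smul]
  rw [e1, e2, norm_smul, norm_smul, Real.norm_of_nonneg hQ.le, ← mul_add]
  rw [norm_smul, Real.norm_of_nonneg (inv_nonneg.2 hQ.le)] at h1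
  calc Q * (‖x₀ + Q⁻¹ • z‖ + ‖x₀ - Q⁻¹ • z‖) ≤ Q * (2 + εs * (Q⁻¹ * ‖z‖)) :=
        mul_le_mul_of_nonneg_left h1 hQ.le
    _ = 2 * Q + εs * ‖z‖ * (Q * Q⁻¹) := by ring
    _ = 2 * Q + εs * ‖z‖ := by rw [mul_inv_cancel₀ hQ.ne', mul_one]

/-- JOB Line. The Busemann argument: an extremal line forces equivariance in its direction on the
whole ball (no matter what the dimension is).

Proof. Write `w = f (R x₀) - f (-R x₀)` and let `u` be a norm-one functional with `u w = ‖w‖`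
(`exists_dual_vector`), `ū = w / ‖w‖`, `y = M ū`. Let `‖z‖ ≤ ρ`, `0 ≤ t ≤ ρ`, `c = f (z + t x₀) - f z`.
Smoothness (with `ε_s`, `δ_s`, and `R ≥ 2 ρ`, `R ≥ 2 ρ / δ_s`): with `Q = R - t` one has
`‖Q x₀ + z‖ + ‖Q x₀ - z‖ ≤ 2 Q + ε_s ‖z‖`, hence
`‖z + R x₀‖ + ‖R x₀ - (z + t x₀)‖ ≤ 2 R - t + ε_s ρ`. So
`u c = u w - u (f z - f (-R x₀)) - u (f (R x₀) - f (z + t x₀)) ≥ M t - M ε_s ρ - 3 δ`, while
`‖c‖ ≤ M t + δ`. If `t ≥ t₀` (`t₀` small, fixed) then `c / (M t + δ)` is in the unit ball, and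
`‖c / (M t + δ) + ū‖ ≥ u (...) ≥ 2 - small`, so by uniform convexity
(`exists_forall_closed_ball_dist_add_le_two_sub`) `c / (M t + δ)` is close to `ū`, whence
`‖c - t • y‖ ≤ ε`. If `t < t₀` then `‖c - t • y‖ ≤ 2 M t₀ + δ ≤ ε`. For `t < 0` exchange the roles of
`z` and `z + t x₀` (so do the above for `‖z‖ ≤ 2 ρ`). Order of choices: `t₀` from `ε, M₁`; the
uniform convexity accuracy from `ε, ρ, M₁`; then `ε_s` from `t₀, ρ` (so `ε_s ρ / t₀` is small);
then `R`; finally `δ` from `t₀, m₀`. -/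
theorem line_lemma (hV : UnifSmooth V) [UniformConvexSpace W] (ρ ε m₀ M₁ : ℝ) (hρ : 0 < ρ)
    (hε : 0 < ε) (hm : 0 < m₀) :
    ∃ R δ : ℝ, 1 ≤ R ∧ 0 < δ ∧ ∀ (f : V → W) (M : ℝ) (x₀ : V), m₀ ≤ M → M ≤ M₁ → ‖x₀‖ = 1 →
      (∀ z z' : V, ‖z‖ ≤ 2 * R → ‖z'‖ ≤ 2 * R → ‖f z - f z'‖ ≤ M * ‖z - z'‖ + δ) →
      2 * R * M - δ ≤ ‖f (R • x₀) - f (-(R • x₀))‖ →
      ∃ y : W, ∀ (z : V) (t : ℝ), ‖z‖ ≤ ρ → |t| ≤ ρ → ‖f (z + t • x₀) - f z - t • y‖ ≤ ε := by
  set M₂ : ℝ := max M₁ 1 with hM₂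
  have hM₂1 : 1 ≤ M₂ := le_max_right _ _
  have hM₂0 : 0 < M₂ := by linarith
  set t₀ : ℝ := ε / (4 * M₂) with ht₀
  have ht₀p : 0 < t₀ := by positivity
  set η : ℝ := ε / (2 * (M₂ * ρ + 1 + ε)) with hη
  have hηp : 0 < η := by positivity
  obtain ⟨δc, hδc, hconv⟩ := exists_forall_closed_ball_dist_add_le_two_sub W hηp
  set εs : ℝ := δc * t₀ / (8 * ρ) with hεs
  have hεsp : 0 < εs := by positivity
  obtain ⟨δs, hδs, hsm⟩ := hV εs hεsp
  set R : ℝ := 1 + 2 * ρ + 2 * ρ / δs with hR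
  have hq : 0 < 2 * ρ / δs := by positivity
  set δ : ℝ := min (min (ε / 2) m₀) (min 1 (δc * m₀ * t₀ / 16)) with hδ
  have hδp : 0 < δ := by
    rw [hδ]
    refine lt_min (lt_min (by positivity) hm) (lt_min one_pos (by positivity))
  have hδ1 : δ ≤ ε / 2 := (min_le_left _ _).trans (min_le_left _ _)
  have hδ2 : δ ≤ m₀ := (min_le_left _ _).trans (min_le_right _ _)
  have hδ3 : δ ≤ 1 := (min_le_right _ _).trans (min_le_left _ _)
  have hδ4 : δ ≤ δc * m₀ * t₀ / 16 := (min_le_right _ _).trans (min_le_right _ _)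
  refine ⟨R, δ, by rw [hR]; linarith, hδp, ?_⟩
  intro f M x₀ hmM hMM hx₀ hlip hline
  have hMp : 0 < M := lt_of_lt_of_le hm hmM
  have hMM2 : M ≤ M₂ := hMM.trans (le_max_left _ _)
  have hRp : 1 ≤ R := by rw [hR]; linarith
  set w : W := f (R • x₀) - f (-(R • x₀)) with hw
  have hwpos : 0 < ‖w‖ := by
    have : 2 * m₀ - δ ≤ 2 * R * M - δ := by nlinarith
    linarith
  have hw0 : w ≠ 0 := norm_pos_iff.1 hwpos
  obtain ⟨u, hu1, huw⟩ := exists_dual_vector ℝ w hwpos.ne'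
  have huw' : u w = ‖w‖ := by simpa using huw
  have hule : ∀ a : W, u a ≤ ‖a‖ := fun a => by
    have := u.le_opNorm a
    rw [hu1, one_mul] at this
    exact (le_abs_self _).trans (by simpa using this)
  set ub : W := ‖w‖⁻¹ • w with hub
  have hub1 : ‖ub‖ = 1 := by
    rw [hub, norm_smul, norm_inv, norm_norm, inv_mul_cancel₀ hwpos.ne']
  have hubu : u ub = 1 := by
    rw [hub, map_smul, huw', smul_eq_mul, inv_mul_cancel₀ hwpos.ne']
  -- the main claim
  have key : ∀ (z : V) (t : ℝ), ‖z‖ ≤ 2 * ρ → 0 ≤ t → t ≤ ρ →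
      ‖f (z + t • x₀) - f z - t • (M • ub)‖ ≤ ε := by
    intro z t hz ht0 htρ
    set c : W := f (z + t • x₀) - f z with hc
    have hRx : ‖R • x₀‖ = R := by
      rw [norm_smul, hx₀, mul_one, Real.norm_of_nonneg (by linarith)]
    have htx : ‖t • x₀‖ = t := by
      rw [norm_smul, hx₀, mul_one, Real.norm_of_nonneg ht0]
    have hzt : ‖z + t • x₀‖ ≤ 2 * R := by
      refine (norm_add_le _ _).trans ?_
      rw [htx, hR]; linarith
    have hz2 : ‖z‖ ≤ 2 * R := by rw [hR]; linarith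
    have hcn : ‖c‖ ≤ M * t + δ := by
      have := hlip (z + t • x₀) z hzt hz2
      rwa [add_sub_cancel_left, htx] at this
    rcases lt_or_ge t t₀ with htt | htt
    · have h1 : ‖t • (M • ub)‖ = t * M := by
        rw [norm_smul, norm_smul, hub1, mul_one, Real.norm_of_nonneg ht0,
          Real.norm_of_nonneg hMp.le]
      have h2 : t * M ≤ t₀ * M₂ := mul_le_mul htt.le hMM2 hMp.le ht₀p.le
      have h3 : t₀ * M₂ = ε / 4 := by rw [ht₀]; field_simp
      calc ‖c - t • (M • ub)‖ ≤ ‖c‖ + ‖t • (M • ub)‖ := norm_sub_le _ _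
        _ ≤ (M * t + δ) + t * M := by rw [h1]; linarith
        _ ≤ ε := by nlinarith
    · -- the long case
      set Q : ℝ := R - t with hQ
      have hQp : 1 + ρ + 2 * ρ / δs ≤ Q := by rw [hQ, hR]; linarith
      have hQ0 : 0 < Q := by linarith
      have hzQ : ‖z‖ ≤ δs * Q := by
        have h1 : δs * (2 * ρ / δs) = 2 * ρ := by field_simp
        have h2 : δs * (2 * ρ / δs) ≤ δs * Q := mul_le_mul_of_nonneg_left (by linarith) hδs.le
        linarith
      have hsmz := line_smooth hsm x₀ z Q hQ0 hx₀ hzQ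
      have e1 : ‖z + R • x₀‖ ≤ ‖z + Q • x₀‖ + t := by
        have : z + R • x₀ = (z + Q • x₀) + t • x₀ := by
          rw [hQ, sub_smul]; abel
        rw [this]
        refine (norm_add_le _ _).trans ?_
        rw [htx]
      have e2 : R • x₀ - (z + t • x₀) = Q • x₀ - z := by
        rw [hQ, sub_smul]; abel
      have a1 : ‖f z - f (-(R • x₀))‖ ≤ M * ‖z + R • x₀‖ + δ := by
        have := hlip z (-(R • x₀)) hz2 (by rw [norm_neg, hRx]; linarith)
        rwa [sub_neg_eq_add] at this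
      have a2 : ‖f (R • x₀) - f (z + t • x₀)‖ ≤ M * ‖Q • x₀ - z‖ + δ := by
        have := hlip (R • x₀) (z + t • x₀) (by rw [hRx]; linarith) hzt
        rwa [e2] at this
      have huc : M * t - M * (εs * (2 * ρ)) - 3 * δ ≤ u c := by
        have e3 : c = w - (f z - f (-(R • x₀))) - (f (R • x₀) - f (z + t • x₀)) := by
          rw [hc, hw]; abel
        have b1 := (hule (f z - f (-(R • x₀)))).trans a1
        have b2 := (hule (f (R • x₀) - f (z + t • x₀))).trans a2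
        have b3 : u c = ‖w‖ - u (f z - f (-(R • x₀))) - u (f (R • x₀) - f (z + t • x₀)) := by
          rw [e3, map_sub, map_sub, huw']
        have b4 : M * (‖z + R • x₀‖ + ‖Q • x₀ - z‖) ≤ M * (2 * Q + εs * ‖z‖ + t) :=
          mul_le_mul_of_nonneg_left (by linarith) hMp.le
        have b5 : M * (εs * ‖z‖) ≤ M * (εs * (2 * ρ)) :=
          mul_le_mul_of_nonneg_left (mul_le_mul_of_nonneg_left hz hεsp.le) hMp.le
        rw [b3]
        have : Q = R - t := hQ
        nlinarith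
      -- uniform convexity
      set r : ℝ := M * t + δ with hr
      have hrp : 0 < r := by positivity
      by_contra hcon
      push Not at hcon
      have hcr : ‖r⁻¹ • c‖ ≤ 1 := by
        rw [norm_smul, Real.norm_of_nonneg (inv_nonneg.2 hrp.le), inv_mul_le_iff₀ hrp, mul_one]
        exact hcn
      have hrle : r ≤ M₂ * ρ + 1 := by
        have : M * t ≤ M₂ * ρ := mul_le_mul hMM2 htρ ht0 hM₂0.le
        rw [hr]; linarith
      have hfar : η ≤ ‖r⁻¹ • c - ub‖ := by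
        by_contra hlt
        push Not at hlt
        have h1 : ‖c - r • ub‖ ≤ r * η := by
          have : c - r • ub = r • (r⁻¹ • c - ub) := by
            rw [smul_sub, smul_smul r r⁻¹ c, mul_inv_cancel₀ hrp.ne', one_smul]
          rw [this, norm_smul, Real.norm_of_nonneg hrp.le]
          exact mul_le_mul_of_nonneg_left hlt.le hrp.le
        have h2 : r * η ≤ ε / 2 := by
          have h3 : (M₂ * ρ + 1 + ε) * η = ε / 2 := by
            rw [hη]; field_simp
          have h4 : r * η ≤ (M₂ * ρ + 1 + ε) * η :=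
            mul_le_mul_of_nonneg_right (by linarith) hηp.le
          linarith
        have h5 : ‖c - t • (M • ub)‖ ≤ ‖c - r • ub‖ + δ := by
          have : c - t • (M • ub) = (c - r • ub) + δ • ub := by
            rw [hr, smul_smul, add_smul, mul_comm t M]; abel
          rw [this]
          refine (norm_add_le _ _).trans ?_
          rw [norm_smul, hub1, mul_one, Real.norm_of_nonneg hδp.le]
        linarith
      have hle := hconv hcr hub1.le hfar
      have hge : u (r⁻¹ • c) + 1 ≤ ‖r⁻¹ • c + ub‖ := by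
        have := hule (r⁻¹ • c + ub)
        rwa [map_add, hubu] at this
      have h6 : u (r⁻¹ • c) ≤ 1 - δc := by linarith
      have h7 : u c ≤ (1 - δc) * r := by
        have : u (r⁻¹ • c) = r⁻¹ * u c := by rw [map_smul, smul_eq_mul]
        rw [this, inv_mul_le_iff₀ hrp] at h6
        linarith [mul_comm r (1 - δc)]
      have h8 : δc * (M * t) ≤ M * (εs * (2 * ρ)) + 4 * δ := by
        have h9 : (1 - δc) * r = M * t + δ - δc * (M * t) - δc * δ := by rw [hr]; ring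
        have h10 : 0 ≤ δc * δ := by positivity
        linarith
      have h11 : εs * (2 * ρ) = δc * t₀ / 4 := by rw [hεs]; field_simp; ring
      rw [h11] at h8
      have h12 : δc * (M * t₀) ≤ δc * (M * t) :=
        mul_le_mul_of_nonneg_left (mul_le_mul_of_nonneg_left htt hMp.le) hδc.le
      have h13 : 4 * δ ≤ δc * (M * t₀) / 4 := by
        have : δc * m₀ * t₀ ≤ δc * M * t₀ :=
          mul_le_mul_of_nonneg_right (mul_le_mul_of_nonneg_left hmM hδc.le) ht₀p.le
        nlinarith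
      have h14 : 0 < δc * (M * t₀) := by positivity
      nlinarith
  refine ⟨M • ub, fun z t hz ht => ?_⟩
  rcases le_or_gt 0 t with h0 | h0
  · exact key z t (by linarith) h0 (by rwa [abs_of_nonneg h0] at ht)
  · have ht' : -t ≤ ρ := by rwa [abs_of_neg h0] at ht
    have h1 := key (z + t • x₀) (-t) (by
      refine (norm_add_le _ _).trans ?_
      rw [norm_smul, hx₀, mul_one, Real.norm_eq_abs, abs_of_neg h0]
      linarith) (by linarith) ht'
    have e1 : z + t • x₀ + (-t) • x₀ = z := by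
      rw [neg_smul]; abel
    rw [e1] at h1
    rw [← norm_neg]
    have e2 : -(f (z + t • x₀) - f z - t • M • ub) = f z - f (z + t • x₀) - (-t) • M • ub := by
      rw [neg_smul]; abel
    rw [e2]
    exact h1

end Pool.Agent.CPav
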