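import Pool.Agent.Lib.MP_758516_an.Ext
import Pool.Agent.Lib.MP_758516_an.Line

open Set Filter Topology

namespace Pool.Agent.CPav

variable {V W S : Type*}
  [NormedAddCommGroup V] [NormedSpace ℝ V] [NormedAddCommGroup W] [NormedSpace ℝ W]

/-- The stretching map `x ↦ x + (K - 1) (φ x / ‖e‖) e`. -/
private noncomputable def globB (φ : V →L[ℝ] ℝ) (e : V) (K : ℝ) (x : V) : V :=
  x + ((K - 1) * (φ x / ‖e‖)) • e

private theorem globB_add (φ : V →L[ℝ] ℝ) (e : V) (K : ℝ) (x y : V) :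
    globB φ e K (x + y) = globB φ e K x + globB φ e K y := by
  unfold globB
  rw [map_add, add_div, mul_add, add_smul]
  abel

private theorem globB_smul (φ : V →L[ℝ] ℝ) (e : V) (K r : ℝ) (x : V) :
    globB φ e K (r • x) = r • globB φ e K x := by
  unfold globB
  rw [map_smul, smul_eq_mul, smul_add, smul_smul]
  congr 2
  ring

private theorem globB_zero (φ : V →L[ℝ] ℝ) (e : V) (K : ℝ) : globB φ e K 0 = 0 := by
  unfold globB
  simp

private theorem globB_neg (φ : V →L[ℝ] ℝ) (e : V) (K : ℝ) (x : V) :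
    globB φ e K (-x) = - globB φ e K x := by
  have := globB_smul φ e K (-1) x
  simpa using this

private theorem globB_sub (φ : V →L[ℝ] ℝ) (e : V) (K : ℝ) (x y : V) :
    globB φ e K (x - y) = globB φ e K x - globB φ e K y := by
  rw [sub_eq_add_neg, globB_add, globB_neg, ← sub_eq_add_neg]

private theorem globB_phi {φ : V →L[ℝ] ℝ} (hφ : ‖φ‖ = 1) (x : V) : |φ x| ≤ ‖x‖ := by
  have := φ.le_opNorm x
  rwa [hφ, one_mul, Real.norm_eq_abs] at this

private theorem globB_coef {φ : V →L[ℝ] ℝ} {e : V} (he : e ≠ 0) (x : V) :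
    ‖(φ x / ‖e‖) • e‖ = |φ x| := by
  have h : ‖e‖ ≠ 0 := norm_ne_zero_iff.2 he
  rw [norm_smul, Real.norm_eq_abs, abs_div, abs_norm, div_mul_cancel₀ _ h]

private theorem globB_norm {φ : V →L[ℝ] ℝ} (hφ : ‖φ‖ = 1) {e : V} (he : e ≠ 0) {K : ℝ}
    (hK : 1 ≤ K) (x : V) : ‖globB φ e K x‖ ≤ K * ‖x‖ := by
  unfold globB
  have h1 : ‖((K - 1) * (φ x / ‖e‖)) • e‖ ≤ (K - 1) * ‖x‖ := by
    rw [mul_smul, norm_smul, globB_coef he, Real.norm_eq_abs, abs_of_nonneg (by linarith)]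
    exact mul_le_mul_of_nonneg_left (globB_phi hφ x) (by linarith)
  calc ‖x + ((K - 1) * (φ x / ‖e‖)) • e‖ ≤ ‖x‖ + ‖((K - 1) * (φ x / ‖e‖)) • e‖ := norm_add_le _ _
    _ ≤ ‖x‖ + (K - 1) * ‖x‖ := by linarith
    _ = K * ‖x‖ := by ring

/-- The system `F s ∘ B`. -/
private noncomputable def globSys (A : Sys V W S) (φ : V →L[ℝ] ℝ) (hφ : ‖φ‖ = 1) (e : V)
    (he : e ≠ 0) (K : ℝ) (hK : 1 ≤ K) : Sys V W S where
  F := fun s x => A.F s (globB φ e K x)
  good := A.good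
  L := K * A.L
  L_pos := mul_pos (by linarith) A.L_pos
  ne := A.ne
  mono := A.mono
  zero := fun ε hε s hs => by
    show A.F s (globB φ e K 0) = 0
    rw [globB_zero]
    exact A.zero ε hε s hs
  lip := fun ε hε s hs x x' => by
    have h1 := A.lip ε hε s hs (globB φ e K x) (globB φ e K x')
    rw [← globB_sub] at h1
    have h2 := globB_norm hφ he hK (x - x')
    have h3 : ε ≤ K * ε := by nlinarith
    calc ‖A.F s (globB φ e K x) - A.F s (globB φ e K x')‖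
        ≤ A.L * (‖globB φ e K (x - x')‖ + ε) := h1
      _ ≤ A.L * (K * ‖x - x'‖ + K * ε) :=
          mul_le_mul_of_nonneg_left (by linarith) A.L_pos.le
      _ = K * A.L * (‖x - x'‖ + ε) := by ring
  clos := fun ε R r₀ hε hr₀ => by
    obtain ⟨ε', hε', h⟩ := A.clos ε (K * R) r₀ hε hr₀
    refine ⟨ε', hε', fun s hs z hz r hr hr1 => ?_⟩
    obtain ⟨s', hs', hF⟩ := h s hs (globB φ e K z)
      ((globB_norm hφ he hK z).trans (mul_le_mul_of_nonneg_left hz (by linarith))) r hr hr1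
    refine ⟨s', hs', ?_⟩
    funext x
    show A.F s' (globB φ e K x) = _
    rw [hF]
    unfold resc
    rw [← globB_smul, ← globB_add]

/-- JOB Glob. Members of a system which are equivariant in a prescribed direction.

Proof. First reduce to `‖e‖ = 1` (replace `e` by `‖e‖⁻¹ • e`, `c` by `c / ‖e‖`, and use the result for
`ε' = min ε (ε / max 1 ‖e‖) ...`; `e ≠ 0` by `he`, `A.ne`, `A.zero` and large `t`).
Let `φ` be a norm-one functional with `φ e = 1`, let `K` be large, and `B x = x + (K - 1) φ x • e`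
(a continuous linear map with `‖B x‖ ≤ K ‖x‖`). The maps `F s ∘ B` form a system `A'` with the same
`good` and `L' = K L` (closure: `resc z r (f ∘ B) = (resc (B z) r f) ∘ B`). Apply `A'.ext_line` and
`line_lemma` (with `m₀ = c K`, as `B e = K e` and `he` gives the lower bound `c K ≤ M`;
`M₁ = K L`; `ρ = 2 / ε + ...`): we get `s ∈ good ε₁`, `x₀`, `y` with
`‖f (B z + t B x₀) - f (B z) - t y‖ ≤ ε / 2` for `‖z‖, |t| ≤ ρ`. From the line inequality and
`lip`: `c K ≤ M ≤ L ‖B x₀‖ + 1`, and `B x₀ = K τ e + (x₀ - τ e)`, `τ = φ x₀`, `‖x₀ - τ e‖ ≤ 2`, so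
`K |τ| ≥ (c K - 1) / L - 2` is large. Every `x` is `B z` with `z = x - (1 - 1/K) φ x • e`,
`‖z‖ ≤ 2 ‖x‖`. For `|t| ≤ ε⁻¹` put `t' = t / (K τ)`; then `B (t' x₀) = t e + t' (x₀ - τ e)` differs
from `t e` by at most `2 |t'|`, so `‖f (x + t e) - f (x + B (t' x₀))‖ ≤ L (2 |t'| + ε₁) ≤ ε / 2`.
The vector wanted is `(K τ)⁻¹ • y`. -/
theorem Sys.exists_aeq (A : Sys V W S) (hV : UnifSmooth V) [UniformConvexSpace W] (e : V) (c : ℝ)
    (hc : 0 < c)
    (he : ∀ ε : ℝ, 0 < ε → ∀ s ∈ A.good ε, ∀ t : ℝ, c * |t| ≤ ‖A.F s (t • e)‖ + ε) :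
    ∀ ε : ℝ, 0 < ε → ∃ s ∈ A.good ε, AEq (A.F s) e ε := by
  intro ε hε
  have he0 : e ≠ 0 := by
    rintro rfl
    obtain ⟨s, hs⟩ := A.ne 1 one_pos
    have h := he 1 one_pos s hs (2 / c)
    rw [smul_zero, A.zero 1 one_pos s hs, norm_zero, zero_add, abs_of_pos (by positivity),
      mul_div_cancel₀ _ hc.ne'] at h
    norm_num at h
  have hen : 0 < ‖e‖ := norm_pos_iff.2 he0
  have : Nontrivial V := ⟨⟨e, 0, he0⟩⟩
  obtain ⟨φ, hφ, hφe⟩ := exists_dual_vector ℝ e (norm_ne_zero_iff.2 he0)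
  have hφe' : φ e = ‖e‖ := by simpa using hφe
  have hL := A.L_pos
  set L := A.L with hLdef
  set T : ℝ := max 1 (8 * L / ε ^ 2) with hT
  have hT1 : 1 ≤ T := le_max_left _ _
  have hT2 : 8 * L / ε ^ 2 ≤ T := le_max_right _ _
  set K : ℝ := max 1 ((L * (T * ‖e‖ + 2) + 1) * ‖e‖ / c) with hKdef
  have hK : 1 ≤ K := le_max_left _ _
  have hK0 : 0 < K := by linarith
  have hK2 : L * (T * ‖e‖ + 2) + 1 ≤ c * K / ‖e‖ := by
    have h1 : (L * (T * ‖e‖ + 2) + 1) * ‖e‖ / c ≤ K := le_max_right _ _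
    rw [div_le_iff₀ hc] at h1
    rw [le_div_iff₀ hen]
    linarith
  set A' := globSys A φ hφ e he0 K hK with hA'
  obtain ⟨M, hM0, hML, hMc, hline⟩ := A'.ext_line
  have hm₀ : c * K / ‖e‖ ≤ M := by
    refine hMc _ fun η hη => ?_
    obtain ⟨s, hs⟩ := A.ne η hη
    refine ⟨s, hs, ‖e‖⁻¹ • e, ?_, ?_⟩
    · rw [norm_smul, norm_inv, norm_norm, inv_mul_cancel₀ hen.ne']
    · show _ ≤ ‖A.F s (globB φ e K (‖e‖⁻¹ • e))‖ + η
      have h1 : globB φ e K (‖e‖⁻¹ • e) = (K / ‖e‖) • e := by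
        rw [globB_smul]
        unfold globB
        rw [hφe', div_self hen.ne', mul_one, sub_smul, one_smul, add_sub_cancel, smul_smul]
        congr 1
        field_simp
      rw [h1]
      have h2 := he η hη s hs (K / ‖e‖)
      rw [abs_of_pos (by positivity)] at h2
      calc c * K / ‖e‖ = c * (K / ‖e‖) := by ring
        _ ≤ _ := h2
  set ρ : ℝ := 2 * ε⁻¹ with hρ
  have hεi : 0 < ε⁻¹ := inv_pos.2 hε
  obtain ⟨R, δ, hR, hδ, hlem⟩ := line_lemma (V := V) (W := W) hV ρ (ε / 2) (c * K / ‖e‖) (K * L)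
    (by positivity) (by positivity) (by positivity)
  set ε₁ : ℝ := min ε (min (1 / L) (ε / (8 * L))) with hε₁
  have hε₁0 : 0 < ε₁ := by
    refine lt_min hε (lt_min (by positivity) (by positivity))
  have hε₁a : ε₁ ≤ ε := min_le_left _ _
  have hε₁b : L * ε₁ ≤ 1 := by
    have : ε₁ ≤ 1 / L := (min_le_right _ _).trans (min_le_left _ _)
    calc L * ε₁ ≤ L * (1 / L) := mul_le_mul_of_nonneg_left this hL.le
      _ = 1 := by field_simp
  have hε₁c : L * ε₁ ≤ ε / 8 := by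
    have : ε₁ ≤ ε / (8 * L) := (min_le_right _ _).trans (min_le_right _ _)
    calc L * ε₁ ≤ L * (ε / (8 * L)) := mul_le_mul_of_nonneg_left this hL.le
      _ = ε / 8 := by field_simp
  obtain ⟨s, hs, x₀, hx₀, hl1, hl2⟩ := hline R (min δ 1) ε₁ hR (lt_min hδ one_pos) hε₁0
  have hsA : s ∈ A.good ε₁ := hs
  obtain ⟨y, hy⟩ := hlem (A'.F s) M x₀ hm₀ hML hx₀
    (fun z z' hz hz' => (hl1 z z' hz hz').trans (by have := min_le_left δ 1; linarith))
    (le_trans (by have := min_le_left δ 1; linarith) hl2)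
  -- the coefficient of `x₀`
  set τ : ℝ := φ x₀ / ‖e‖ with hτ
  set h₀ : V := x₀ - τ • e with hh₀
  have hBx₀ : globB φ e K x₀ = (K * τ) • e + h₀ := by
    unfold globB
    rw [hh₀, sub_mul, one_mul, sub_smul]
    abel
  have hh₀n : ‖h₀‖ ≤ 2 := by
    have h1 : ‖τ • e‖ ≤ 1 := by
      rw [hτ, globB_coef he0]
      exact (globB_phi hφ x₀).trans hx₀.le
    calc ‖h₀‖ ≤ ‖x₀‖ + ‖τ • e‖ := norm_sub_le _ _
      _ ≤ 2 := by linarith
  have hKτ : T ≤ K * |τ| := by
    have h1 : ‖A'.F s (R • x₀) - A'.F s (-(R • x₀))‖ ≤ L * (2 * R * ‖globB φ e K x₀‖ + ε₁) := by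
      have h2 := A.lip ε₁ hε₁0 s hsA (globB φ e K (R • x₀)) (globB φ e K (-(R • x₀)))
      have h3 : globB φ e K (R • x₀) - globB φ e K (-(R • x₀)) = (2 * R) • globB φ e K x₀ := by
        rw [globB_neg, globB_smul, sub_neg_eq_add, ← add_smul]
        congr 1
        ring
      rw [h3, norm_smul, Real.norm_of_nonneg (by positivity)] at h2
      exact h2
    have h2 := hl2.trans h1
    have h3 : ‖globB φ e K x₀‖ ≤ K * |τ| * ‖e‖ + 2 := by
      rw [hBx₀]
      refine (norm_add_le _ _).trans ?_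
      rw [norm_smul, Real.norm_eq_abs, abs_mul, abs_of_pos hK0]
      linarith
    have h4 : M ≤ L * ‖globB φ e K x₀‖ + 1 := by
      have h5 : min δ 1 ≤ 1 := min_le_right _ _
      by_contra hcon
      have h6 := not_le.1 hcon
      have h7 : 2 * R * (L * ‖globB φ e K x₀‖ + 1) < 2 * R * M := by
        apply mul_lt_mul_of_pos_left h6
        linarith
      nlinarith
    have h5 : L * (T * ‖e‖ + 2) + 1 ≤ L * (K * |τ| * ‖e‖ + 2) + 1 := by
      calc L * (T * ‖e‖ + 2) + 1 ≤ M := hK2.trans hm₀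
        _ ≤ L * ‖globB φ e K x₀‖ + 1 := h4
        _ ≤ L * (K * |τ| * ‖e‖ + 2) + 1 := by
          have := mul_le_mul_of_nonneg_left h3 hL.le
          linarith
    have h6 : L * (T * ‖e‖ + 2) ≤ L * (K * |τ| * ‖e‖ + 2) := by linarith
    have h7 := le_of_mul_le_mul_left h6 hL
    have h8 : T * ‖e‖ ≤ K * |τ| * ‖e‖ := by linarith
    exact le_of_mul_le_mul_right h8 hen
  have hKτ0 : 0 < K * |τ| := by linarith
  have hKτ' : K * τ ≠ 0 := by
    intro h
    have : K * |τ| = 0 := by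
      rw [← abs_of_pos hK0, ← abs_mul, h, abs_zero]
    linarith
  refine ⟨s, A.mono ε₁ ε hε₁0 hε₁a hsA, (K * τ)⁻¹ • y, fun x t hx ht => ?_⟩
  -- the point `z` with `B z = x`
  set z : V := x - ((1 - 1 / K) * (φ x / ‖e‖)) • e with hz
  have hBz : globB φ e K z = x := by
    unfold globB
    have h1 : φ z = φ x / K := by
      rw [hz, map_sub, map_smul, hφe', smul_eq_mul]
      field_simp
      ring
    rw [h1, hz, sub_add, sub_eq_self, ← sub_smul, smul_eq_zero]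
    left
    field_simp
    ring
  have hzn : ‖z‖ ≤ ρ := by
    have h1 : ‖((1 - 1 / K) * (φ x / ‖e‖)) • e‖ ≤ ‖x‖ := by
      rw [mul_smul, norm_smul, globB_coef he0, Real.norm_eq_abs]
      have h2 : 0 < 1 / K := by positivity
      have h3 : 1 / K ≤ 1 := by
        rw [div_le_one hK0]
        exact hK
      have h4 : |1 - 1 / K| ≤ 1 := by
        rw [abs_le]
        constructor <;> linarith
      calc |1 - 1 / K| * |φ x| ≤ 1 * |φ x| := mul_le_mul_of_nonneg_right h4 (abs_nonneg _)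
        _ ≤ ‖x‖ := by rw [one_mul]; exact globB_phi hφ x
    calc ‖z‖ ≤ ‖x‖ + ‖((1 - 1 / K) * (φ x / ‖e‖)) • e‖ := norm_sub_le _ _
      _ ≤ ρ := by rw [hρ]; linarith
  set t' : ℝ := t / (K * τ) with ht'
  have ht'a : |t'| ≤ ε⁻¹ / T := by
    rw [ht', abs_div, abs_mul, abs_of_pos hK0]
    have h1 : 0 < T := by linarith
    calc |t| / (K * |τ|) ≤ ε⁻¹ / (K * |τ|) := by gcongr
      _ ≤ ε⁻¹ / T := by gcongr
  have ht'b : |t'| ≤ ρ := by
    have h1 : ε⁻¹ / T ≤ ε⁻¹ := div_le_self hεi.le hT1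
    rw [hρ]
    linarith
  have h1 := hy z t' hzn ht'b
  have h2 : A'.F s (z + t' • x₀) = A.F s (x + t • e + t' • h₀) := by
    show A.F s (globB φ e K (z + t' • x₀)) = _
    rw [globB_add, globB_smul, hBz, hBx₀, smul_add, smul_smul, ht', div_mul_cancel₀ _ hKτ', add_assoc]
  have h3 : A'.F s z = A.F s x := by
    show A.F s (globB φ e K z) = _
    rw [hBz]
  rw [h2, h3] at h1
  have h4 := A.lip ε₁ hε₁0 s hsA (x + t • e) (x + t • e + t' • h₀)
  have h5 : ‖x + t • e - (x + t • e + t' • h₀)‖ ≤ 2 * |t'| := by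
    rw [sub_add_cancel_left, norm_neg, norm_smul, Real.norm_eq_abs]
    calc |t'| * ‖h₀‖ ≤ |t'| * 2 := mul_le_mul_of_nonneg_left hh₀n (abs_nonneg _)
      _ = 2 * |t'| := by ring
  have h6 : L * (2 * |t'|) ≤ ε / 4 := by
    have h7 : ε⁻¹ / T ≤ ε / (8 * L) := by
      rw [div_le_div_iff₀ (by linarith) (by positivity)]
      have h8 : 8 * L ≤ T * ε ^ 2 := (div_le_iff₀ (by positivity)).1 hT2
      calc ε⁻¹ * (8 * L) ≤ ε⁻¹ * (T * ε ^ 2) := mul_le_mul_of_nonneg_left h8 hεi.le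
        _ = ε * T := by field_simp
    have h8 := ht'a.trans h7
    calc L * (2 * |t'|) ≤ L * (2 * (ε / (8 * L))) := by gcongr
      _ = ε / 4 := by field_simp; ring
  have h7 : t • (K * τ)⁻¹ • y = t' • y := by
    rw [smul_smul, ht', div_eq_mul_inv]
  rw [h7]
  calc ‖A.F s (x + t • e) - A.F s x - t' • y‖
      = ‖(A.F s (x + t • e) - A.F s (x + t • e + t' • h₀)) +
          (A.F s (x + t • e + t' • h₀) - A.F s x - t' • y)‖ := by
        congr 1
        abel
    _ ≤ ‖A.F s (x + t • e) - A.F s (x + t • e + t' • h₀)‖ +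
          ‖A.F s (x + t • e + t' • h₀) - A.F s x - t' • y‖ := norm_add_le _ _
    _ ≤ L * (2 * |t'| + ε₁) + ε / 2 := by
        have := mul_le_mul_of_nonneg_left (add_le_add_left h5 ε₁) hL.le
        linarith
    _ ≤ ε := by
        rw [mul_add]
        linarith

end Pool.Agent.CPav
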