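import Pool.Agent.Lib.MP_758516_an.FSysB

open Set Filter Topology

namespace Pool.Agent.CPav

variable {X Y X₁ : Type*}
  [NormedAddCommGroup X] [NormedSpace ℝ X] [NormedAddCommGroup Y] [NormedSpace ℝ Y]
  [NormedAddCommGroup X₁] [NormedSpace ℝ X₁]

/-- JOB Joint. Approximate joint extension.

Proof. Take `A` from `exists_Esys` for the list of the `e i`, and `f`, `x` from `exists_Flin` for
small `ε'`. Let `y i` be the vectors in `AEq f (e i) ε'`. With `w = ∑ b j • v j`, `g = f.symm`: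
`f (g w + ∑ a i • e i)` is `m ε'`-close to `w + ∑ a i • y i` (add the `a i • e i` one after the
other; the norms stay below a bound depending on `e`, `v`, `L` only, so below `ε'⁻¹`), and `g w` is
`ε'`-close to `∑ b j • x j`. Use `Coarse L ε' f` between `g w + ∑ a i • e i` and `0`. -/
theorem joint_approx (hX : UnifSmooth X) [UniformConvexSpace Y] [UniformConvexSpace X₁]
    (A₁ : X ≃L[ℝ] X₁) (L : ℝ) (hL : 0 < L) (h : CoarseEq X Y L) (m k : ℕ) (e : Fin m → X)
    (v : Fin k → Y) (hv : LinearIndependent ℝ v) :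
    ∀ ε : ℝ, 0 < ε → ∃ (y : Fin m → Y) (x : Fin k → X), ∀ (a : Fin m → ℝ) (b : Fin k → ℝ),
      (∀ i, |a i| ≤ 1) → (∀ j, |b j| ≤ 1) →
      ‖∑ i, a i • e i + ∑ j, b j • x j‖ ≤ L * ‖∑ i, a i • y i + ∑ j, b j • v j‖ + ε ∧
      ‖∑ i, a i • y i + ∑ j, b j • v j‖ ≤ L * ‖∑ i, a i • e i + ∑ j, b j • x j‖ + ε := by
  classical
  intro ε hε
  obtain ⟨A, hA, hA', hA''⟩ := exists_Esys hX L hL h (List.ofFn e)
  set Be : ℝ := ∑ i, ‖e i‖ with hBe
  set Bv : ℝ := ∑ j, ‖v j‖ with hBv
  have hBe0 : 0 ≤ Be := Finset.sum_nonneg fun _ _ => norm_nonneg _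
  have hBv0 : 0 ≤ Bv := Finset.sum_nonneg fun _ _ => norm_nonneg _
  have hD1 : 0 < L * (Bv + 1) + Be + 1 := by positivity
  have hD2 : 0 < L * (m + 2) + m + 1 := by positivity
  set ε' : ℝ := min 1 (min (L * (Bv + 1) + Be + 1)⁻¹ (ε / (L * (m + 2) + m + 1))) with hε'def
  have hε' : 0 < ε' := by positivity
  have h1 : ε' ≤ 1 := min_le_left _ _
  have h2 : ε' ≤ (L * (Bv + 1) + Be + 1)⁻¹ := (min_le_right _ _).trans (min_le_left _ _)
  have h3 : ε' ≤ ε / (L * (m + 2) + m + 1) := (min_le_right _ _).trans (min_le_right _ _)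
  have h4 : L * (Bv + 1) + Be + 1 ≤ ε'⁻¹ := by
    rw [le_inv_comm₀ hD1 hε']
    exact h2
  have h5 : ε' * (L * (m + 2) + m + 1) ≤ ε := by
    rwa [le_div_iff₀ hD2] at h3
  have h6 : 1 ≤ ε'⁻¹ := (one_le_inv₀ hε').2 h1
  obtain ⟨f, hf, x, hx⟩ := exists_Flin A₁ L hL A hA hA' k v hv ε' hε'
  obtain ⟨hf0, hfc⟩ := hA' ε' hε' f hf
  have hfe : ∀ i, AEq f (e i) ε' := fun i =>
    hA'' ε' hε' f hf (e i) (by rw [List.mem_ofFn]; exact ⟨i, rfl⟩)
  choose y hy using hfe
  refine ⟨y, x, fun a b ha hb => ?_⟩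
  set w : Y := ∑ j, b j • v j with hw
  set g : X := f.symm w with hg
  have hwB : ‖w‖ ≤ Bv := by
    refine (norm_sum_le _ _).trans (Finset.sum_le_sum fun j _ => ?_)
    rw [norm_smul, Real.norm_eq_abs]
    calc |b j| * ‖v j‖ ≤ 1 * ‖v j‖ := by
          gcongr
          exact hb j
      _ = ‖v j‖ := one_mul _
  have hfg : f g = w := f.apply_symm_apply w
  have hgB : ‖g‖ ≤ L * (Bv + 1) := by
    have h7 := (hfc g 0).2
    rw [hf0, sub_zero, sub_zero, hfg] at h7
    refine h7.trans ?_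
    gcongr
  have key : ∀ s : Finset (Fin m),
      ‖f (g + ∑ i ∈ s, a i • e i) - (w + ∑ i ∈ s, a i • y i)‖ ≤ s.card * ε' := by
    intro s
    induction s using Finset.induction_on with
    | empty => simp [hfg]
    | insert i s hi ih =>
      rw [Finset.sum_insert hi, Finset.sum_insert hi, Finset.card_insert_of_notMem hi]
      have hz : ‖g + ∑ i ∈ s, a i • e i‖ ≤ ε'⁻¹ := by
        have h8 : ‖∑ i ∈ s, a i • e i‖ ≤ Be := by
          calc ‖∑ i ∈ s, a i • e i‖ ≤ ∑ i ∈ s, ‖a i • e i‖ := norm_sum_le _ _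
            _ ≤ ∑ i ∈ s, ‖e i‖ := by
                refine Finset.sum_le_sum fun j _ => ?_
                rw [norm_smul, Real.norm_eq_abs]
                calc |a j| * ‖e j‖ ≤ 1 * ‖e j‖ := by
                      gcongr
                      exact ha j
                  _ = ‖e j‖ := one_mul _
            _ ≤ Be := Finset.sum_le_sum_of_subset_of_nonneg (Finset.subset_univ _)
                fun _ _ _ => norm_nonneg _
        have h9 := norm_add_le g (∑ i ∈ s, a i • e i)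
        linarith
      have h8 := hy i (g + ∑ i ∈ s, a i • e i) (a i) hz ((ha i).trans h6)
      have e1 : f (g + (a i • e i + ∑ i ∈ s, a i • e i)) - (w + (a i • y i + ∑ i ∈ s, a i • y i)) =
          (f (g + ∑ i ∈ s, a i • e i + a i • e i) - f (g + ∑ i ∈ s, a i • e i) - a i • y i) +
            (f (g + ∑ i ∈ s, a i • e i) - (w + ∑ i ∈ s, a i • y i)) := by
        have e2 : g + (a i • e i + ∑ i ∈ s, a i • e i) = g + ∑ i ∈ s, a i • e i + a i • e i := by
          abel
        rw [e2]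
        abel
      rw [e1]
      refine (norm_add_le _ _).trans ?_
      push_cast
      linarith
  have hkey := key Finset.univ
  rw [Finset.card_univ, Fintype.card_fin] at hkey
  set P : X := g + ∑ i, a i • e i with hP
  set Q : Y := ∑ i, a i • y i + w with hQ
  set P' : X := ∑ i, a i • e i + ∑ j, b j • x j with hP'
  have hQ' : w + ∑ i, a i • y i = Q := add_comm _ _
  rw [hQ'] at hkey
  have hPP : ‖P - P'‖ ≤ ε' := by
    have e1 : P - P' = f.symm (∑ j, b j • v j) - ∑ j, b j • x j := by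
      rw [hP, hP', hg, hw]
      abel
    rw [e1]
    exact hx b hb
  have hc := hfc P 0
  rw [hf0, sub_zero, sub_zero] at hc
  obtain ⟨hc1, hc2⟩ := hc
  have n1 : ‖P'‖ ≤ ‖P‖ + ε' := by
    have := norm_sub_norm_le P' P
    rw [norm_sub_rev] at this
    linarith
  have n2 : ‖P‖ ≤ ‖P'‖ + ε' := by
    have := norm_sub_norm_le P P'
    linarith
  have n3 : ‖f P‖ ≤ ‖Q‖ + m * ε' := by
    have := norm_sub_norm_le (f P) Q
    linarith
  have n4 : ‖Q‖ ≤ ‖f P‖ + m * ε' := by
    have := norm_sub_norm_le Q (f P)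
    rw [norm_sub_rev] at this
    linarith
  have hm : (0 : ℝ) ≤ m := Nat.cast_nonneg m
  have hmL : 0 ≤ ε' * (L * m) := by positivity
  have hmε : 0 ≤ ε' * m := by positivity
  have hLε : 0 ≤ ε' * L := by positivity
  constructor
  · have n5 : L * ‖f P‖ ≤ L * (‖Q‖ + m * ε') := by gcongr
    nlinarith
  · have n5 : L * ‖P‖ ≤ L * (‖P'‖ + ε') := by gcongr
    nlinarith

end Pool.Agent.CPav
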