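import Pool.Agent.Lib.MP_758516_an.Defs

open Set Filter Topology

namespace Pool.Agent.CPav

variable {X Y X₂ Y₁ : Type*}
  [NormedAddCommGroup X] [NormedSpace ℝ X] [NormedAddCommGroup Y] [NormedSpace ℝ Y]
  [NormedAddCommGroup X₂] [NormedSpace ℝ X₂] [NormedAddCommGroup Y₁] [NormedSpace ℝ Y₁]

/-- JOB PavA. The joint extension property gives a common paving (recursion along dense
sequences of `X` and `Y`). -/
theorem paving_of_jointExt [TopologicalSpace.SeparableSpace X] [TopologicalSpace.SeparableSpace Y]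
    (C : ℝ) (h : JointExt X Y C) :
    ∃ (E : ℕ → Submodule ℝ X) (F : ℕ → Submodule ℝ Y),
        Monotone E ∧ Monotone F ∧
        (∀ n, FiniteDimensional ℝ ↥(E n)) ∧ (∀ n, FiniteDimensional ℝ ↥(F n)) ∧
        Dense (⋃ n, (E n : Set X)) ∧ Dense (⋃ n, (F n : Set Y)) ∧
        ∃ (T : ∀ n, ↥(E n) ≃L[ℝ] ↥(F n)) (C : ℝ), ∀ n,
          ‖((T n : ↥(E n) →L[ℝ] ↥(F n)))‖ *
            ‖(((T n).symm : ↥(F n) →L[ℝ] ↥(E n)))‖ ≤ C := by
  classical
  let St : Type _ := {p : Submodule ℝ X × Submodule ℝ Y //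
    FiniteDimensional ℝ ↥p.1 ∧ FiniteDimensional ℝ ↥p.2 ∧ ∃ T : ↥p.1 ≃L[ℝ] ↥p.2,
      ‖(T : ↥p.1 →L[ℝ] ↥p.2)‖ * ‖(T.symm : ↥p.2 →L[ℝ] ↥p.1)‖ ≤ C}
  have hstep : ∀ (p : St) (n : ℕ), ∃ q : St, p.1.1 ≤ q.1.1 ∧ p.1.2 ≤ q.1.2 ∧
      TopologicalSpace.denseSeq X n ∈ q.1.1 ∧ TopologicalSpace.denseSeq Y n ∈ q.1.2 := by
    rintro ⟨⟨E, F⟩, hE, hF, -⟩ n
    have hE' : FiniteDimensional ℝ ↥E := hE
    have hF' : FiniteDimensional ℝ ↥F := hF
    obtain ⟨E', F', h1, h2, h3, h4, T, hT⟩ := h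
      (E ⊔ Submodule.span ℝ {TopologicalSpace.denseSeq X n})
      (F ⊔ Submodule.span ℝ {TopologicalSpace.denseSeq Y n}) inferInstance inferInstance
    refine ⟨⟨⟨E', F'⟩, h3, h4, T, hT⟩, le_sup_left.trans h1, le_sup_left.trans h2, ?_, ?_⟩
    · exact h1 (Submodule.mem_sup_right (Submodule.mem_span_singleton_self _))
    · exact h2 (Submodule.mem_sup_right (Submodule.mem_span_singleton_self _))
  have h0 : Nonempty St := by
    obtain ⟨E', F', -, -, h3, h4, T, hT⟩ := h ⊥ ⊥ inferInstance inferInstance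
    exact ⟨⟨⟨E', F'⟩, h3, h4, T, hT⟩⟩
  obtain ⟨p0⟩ := h0
  choose nxt hn1 hn2 hn3 hn4 using hstep
  let s : ℕ → St := fun n => Nat.rec p0 (fun n p => nxt p n) n
  have hs : ∀ n, s (n + 1) = nxt (s n) n := fun n => rfl
  refine ⟨fun n => (s n).1.1, fun n => (s n).1.2, ?_, ?_, fun n => (s n).2.1,
    fun n => (s n).2.2.1, ?_, ?_, fun n => (s n).2.2.2.choose, C,
    fun n => (s n).2.2.2.choose_spec⟩
  · refine monotone_nat_of_le_succ fun n => ?_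
    rw [hs n]
    exact hn1 _ _
  · refine monotone_nat_of_le_succ fun n => ?_
    rw [hs n]
    exact hn2 _ _
  · refine (TopologicalSpace.denseRange_denseSeq X).mono ?_
    rintro _ ⟨n, rfl⟩
    refine mem_iUnion.2 ⟨n + 1, ?_⟩
    change TopologicalSpace.denseSeq X n ∈ (s (n + 1)).1.1
    rw [hs n]
    exact hn3 _ _
  · refine (TopologicalSpace.denseRange_denseSeq Y).mono ?_
    rintro _ ⟨n, rfl⟩
    refine mem_iUnion.2 ⟨n + 1, ?_⟩
    change TopologicalSpace.denseSeq Y n ∈ (s (n + 1)).1.2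
    rw [hs n]
    exact hn4 _ _

end Pool.Agent.CPav
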