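import Pool.Agent.Lib.MP_758516_an.Defs

open Set Filter Topology

namespace Pool.Agent.CPav

variable {X Y X₂ Y₁ : Type*}
  [NormedAddCommGroup X] [NormedSpace ℝ X] [NormedAddCommGroup Y] [NormedSpace ℝ Y]
  [NormedAddCommGroup X₂] [NormedSpace ℝ X₂] [NormedAddCommGroup Y₁] [NormedSpace ℝ Y₁]

/-- JOB PavB. Invariance under linear isomorphisms. -/
theorem jointExt_congr (A : X ≃L[ℝ] X₂) (B : Y ≃L[ℝ] Y₁) (C : ℝ) (h : JointExt X₂ Y₁ C) :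
    ∃ C' : ℝ, JointExt X Y C' := by
  set α : ℝ := ‖(A : X →L[ℝ] X₂)‖ with hα
  set α' : ℝ := ‖(A.symm : X₂ →L[ℝ] X)‖ with hα'
  set β : ℝ := ‖(B : Y →L[ℝ] Y₁)‖ with hβ
  set β' : ℝ := ‖(B.symm : Y₁ →L[ℝ] Y)‖ with hβ'
  have hα0 : 0 ≤ α := norm_nonneg _
  have hα'0 : 0 ≤ α' := norm_nonneg _
  have hβ0 : 0 ≤ β := norm_nonneg _
  have hβ'0 : 0 ≤ β' := norm_nonneg _
  refine ⟨(β' * α) * (α' * β) * C, ?_⟩
  intro E F hE hF
  obtain ⟨E₂, F₂, hEE, hFF, hE₂, hF₂, T, hT⟩ :=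
    h (E.map (A : X →ₗ[ℝ] X₂)) (F.map (B : Y →ₗ[ℝ] Y₁)) inferInstance inferInstance
  let a : E₂ ≃L[ℝ] E₂.map (A.symm : X₂ →ₗ[ℝ] X) := A.symm.submoduleMap E₂
  let b : F₂ ≃L[ℝ] F₂.map (B.symm : Y₁ →ₗ[ℝ] Y) := B.symm.submoduleMap F₂
  refine ⟨E₂.map (A.symm : X₂ →ₗ[ℝ] X), F₂.map (B.symm : Y₁ →ₗ[ℝ] Y), ?_, ?_, inferInstance,
    inferInstance, a.symm.trans (T.trans b), ?_⟩
  · intro x hx
    exact ⟨A x, hEE ⟨x, hx, rfl⟩, A.symm_apply_apply x⟩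
  · intro x hx
    exact ⟨B x, hFF ⟨x, hx, rfl⟩, B.symm_apply_apply x⟩
  · have n1 : ∀ x, ‖a.symm x‖ ≤ α * ‖x‖ := fun x => by
      have e : ((a.symm x : E₂) : X₂) = A (x : X) := by
        have := ContinuousLinearEquiv.submoduleMap_symm_apply A.symm E₂ x
        simpa using this
      have := (A : X →L[ℝ] X₂).le_opNorm (x : X)
      show ‖((a.symm x : E₂) : X₂)‖ ≤ α * ‖(x : X)‖
      rw [e]
      exact this
    have n2 : ∀ x, ‖b x‖ ≤ β' * ‖x‖ := fun x => by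
      have e : ((b x : F₂.map (B.symm : Y₁ →ₗ[ℝ] Y)) : Y) = B.symm (x : Y₁) :=
        ContinuousLinearEquiv.submoduleMap_apply B.symm F₂ x
      have := (B.symm : Y₁ →L[ℝ] Y).le_opNorm (x : Y₁)
      show ‖((b x : F₂.map (B.symm : Y₁ →ₗ[ℝ] Y)) : Y)‖ ≤ β' * ‖(x : Y₁)‖
      rw [e]
      exact this
    have n3 : ∀ x, ‖a x‖ ≤ α' * ‖x‖ := fun x => by
      have e : ((a x : E₂.map (A.symm : X₂ →ₗ[ℝ] X)) : X) = A.symm (x : X₂) :=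
        ContinuousLinearEquiv.submoduleMap_apply A.symm E₂ x
      have := (A.symm : X₂ →L[ℝ] X).le_opNorm (x : X₂)
      show ‖((a x : E₂.map (A.symm : X₂ →ₗ[ℝ] X)) : X)‖ ≤ α' * ‖(x : X₂)‖
      rw [e]
      exact this
    have n4 : ∀ x, ‖b.symm x‖ ≤ β * ‖x‖ := fun x => by
      have e : ((b.symm x : F₂) : Y₁) = B (x : Y) := by
        have := ContinuousLinearEquiv.submoduleMap_symm_apply B.symm F₂ x
        simpa using this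
      have := (B : Y →L[ℝ] Y₁).le_opNorm (x : Y)
      show ‖((b.symm x : F₂) : Y₁)‖ ≤ β * ‖(x : Y)‖
      rw [e]
      exact this
    set τ : ℝ := ‖(T : E₂ →L[ℝ] F₂)‖ with hτ
    set τ' : ℝ := ‖(T.symm : F₂ →L[ℝ] E₂)‖ with hτ'
    have hτ0 : 0 ≤ τ := ContinuousLinearMap.opNorm_nonneg _
    have hτ'0 : 0 ≤ τ' := ContinuousLinearMap.opNorm_nonneg _
    have m1 : ‖((a.symm.trans (T.trans b) :
        E₂.map (A.symm : X₂ →ₗ[ℝ] X) ≃L[ℝ] F₂.map (B.symm : Y₁ →ₗ[ℝ] Y)) :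
        E₂.map (A.symm : X₂ →ₗ[ℝ] X) →L[ℝ] F₂.map (B.symm : Y₁ →ₗ[ℝ] Y))‖ ≤ β' * τ * α := by
      refine ContinuousLinearMap.opNorm_le_bound _ (by positivity) (fun x => ?_)
      show ‖b (T (a.symm x))‖ ≤ _
      calc ‖b (T (a.symm x))‖ ≤ β' * ‖T (a.symm x)‖ := n2 _
        _ ≤ β' * (τ * ‖a.symm x‖) :=
            mul_le_mul_of_nonneg_left ((T : E₂ →L[ℝ] F₂).le_opNorm _) hβ'0
        _ ≤ β' * (τ * (α * ‖x‖)) :=
            mul_le_mul_of_nonneg_left (mul_le_mul_of_nonneg_left (n1 x) hτ0) hβ'0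
        _ = β' * τ * α * ‖x‖ := by ring
    have m2 : ‖(((a.symm.trans (T.trans b)).symm :
        F₂.map (B.symm : Y₁ →ₗ[ℝ] Y) ≃L[ℝ] E₂.map (A.symm : X₂ →ₗ[ℝ] X)) :
        F₂.map (B.symm : Y₁ →ₗ[ℝ] Y) →L[ℝ] E₂.map (A.symm : X₂ →ₗ[ℝ] X))‖ ≤ α' * τ' * β := by
      refine ContinuousLinearMap.opNorm_le_bound _ (by positivity) (fun x => ?_)
      show ‖a (T.symm (b.symm x))‖ ≤ _
      calc ‖a (T.symm (b.symm x))‖ ≤ α' * ‖T.symm (b.symm x)‖ := n3 _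
        _ ≤ α' * (τ' * ‖b.symm x‖) :=
            mul_le_mul_of_nonneg_left ((T.symm : F₂ →L[ℝ] E₂).le_opNorm _) hα'0
        _ ≤ α' * (τ' * (β * ‖x‖)) :=
            mul_le_mul_of_nonneg_left (mul_le_mul_of_nonneg_left (n4 x) hτ'0) hα'0
        _ = α' * τ' * β * ‖x‖ := by ring
    calc _ ≤ (β' * τ * α) * (α' * τ' * β) :=
          mul_le_mul m1 m2 (ContinuousLinearMap.opNorm_nonneg _) (by positivity)
      _ = (β' * α) * (α' * β) * (τ * τ') := by ring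
      _ ≤ (β' * α) * (α' * β) * C := mul_le_mul_of_nonneg_left hT (by positivity)

end Pool.Agent.CPav
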