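import Pool.Agent.Lib.MP_758516_an.Defs

open Set Filter Topology

namespace Pool.Agent.CPav

universe u v

section Renorm

variable {X₁ : Type u} [NormedAddCommGroup X₁] [NormedSpace ℝ X₁]
  {Y : Type v} [NormedAddCommGroup Y] [NormedSpace ℝ Y]

/-- Maps fixing the origin which are coarsely bi-Lipschitz. -/
private def RGood (L κ : ℝ) (f : X₁ ≃ Y) : Prop := f 0 = 0 ∧ Coarse L κ f

/-- Rebasing. -/
private def Rrb (f : X₁ ≃ Y) (y : Y) : X₁ ≃ Y where
  toFun x := f (f.symm y + x) - y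
  invFun w := f.symm (w + y) - f.symm y
  left_inv x := by simp
  right_inv w := by simp

/-- Rescaling. -/
private noncomputable def Rrs (f : X₁ ≃ Y) (r : ℝ) (hr : r ≠ 0) : X₁ ≃ Y where
  toFun x := r⁻¹ • f (r • x)
  invFun w := r⁻¹ • f.symm (r • w)
  left_inv x := by simp [smul_smul, hr]
  right_inv w := by simp [smul_smul, hr]

omit [NormedSpace ℝ X₁] [NormedSpace ℝ Y] in
private theorem Rrb_symm (f : X₁ ≃ Y) (y w : Y) :
    (Rrb f y).symm w = f.symm (w + y) - f.symm y := rfl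

private theorem Rrs_symm (f : X₁ ≃ Y) (r : ℝ) (hr : r ≠ 0) (w : Y) :
    (Rrs f r hr).symm w = r⁻¹ • f.symm (r • w) := rfl

omit [NormedSpace ℝ X₁] [NormedSpace ℝ Y] in
private theorem RGood.rb {L κ : ℝ} {f : X₁ ≃ Y} (hf : RGood L κ f) (y : Y) :
    RGood L κ (Rrb f y) := by
  refine ⟨?_, fun x x' => ?_⟩
  · show f (f.symm y + 0) - y = 0
    simp
  · have h := hf.2 (f.symm y + x) (f.symm y + x')
    have e1 : Rrb f y x - Rrb f y x' = f (f.symm y + x) - f (f.symm y + x') := by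
      show f (f.symm y + x) - y - (f (f.symm y + x') - y) = _
      abel
    have e2 : f.symm y + x - (f.symm y + x') = x - x' := by abel
    rw [e2] at h
    rw [e1]
    exact h

private theorem RGood.rs {L κ : ℝ} {f : X₁ ≃ Y} (r : ℝ) (hr : 0 < r)
    (hf : RGood L (r * κ) f) : RGood L κ (Rrs f r hr.ne') := by
  refine ⟨?_, fun x x' => ?_⟩
  · show r⁻¹ • f (r • (0 : X₁)) = 0
    rw [smul_zero, hf.1, smul_zero]
  · have h := hf.2 (r • x) (r • x')
    have e1 : Rrs f r hr.ne' x - Rrs f r hr.ne' x' = r⁻¹ • (f (r • x) - f (r • x')) := by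
      show r⁻¹ • f (r • x) - r⁻¹ • f (r • x') = _
      rw [smul_sub]
    have e2 : r • x - r • x' = r • (x - x') := (smul_sub _ _ _).symm
    rw [e2, norm_smul, Real.norm_of_nonneg hr.le] at h
    rw [e1, norm_smul, norm_inv, Real.norm_of_nonneg hr.le]
    constructor
    · rw [inv_mul_le_iff₀ hr]
      calc _ ≤ L * (r * ‖x - x'‖ + r * κ) := h.1
        _ = _ := by ring
    · rw [← mul_le_mul_iff_right₀ hr]
      calc _ ≤ _ := h.2
        _ = _ := by field_simp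

omit [NormedSpace ℝ X₁] [NormedSpace ℝ Y] in
private theorem RGood.mono {L κ κ' : ℝ} (hL : 0 < L) (hκ : κ ≤ κ') {f : X₁ ≃ Y}
    (hf : RGood L κ f) : RGood L κ' f := by
  refine ⟨hf.1, fun x x' => ⟨(hf.2 x x').1.trans ?_, (hf.2 x x').2.trans ?_⟩⟩ <;> gcongr

omit [NormedSpace ℝ X₁] [NormedSpace ℝ Y] in
private theorem RGood.symm_le {L κ : ℝ} {f : X₁ ≃ Y} (hf : RGood L κ f) (y y' : Y) :
    ‖f.symm y - f.symm y'‖ ≤ L * (‖y - y'‖ + κ) := by
  have h := (hf.2 (f.symm y) (f.symm y')).2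
  simpa using h

omit [NormedSpace ℝ X₁] [NormedSpace ℝ Y] in
private theorem RGood.le_symm {L κ : ℝ} {f : X₁ ≃ Y} (hf : RGood L κ f) (y y' : Y) :
    ‖y - y'‖ ≤ L * (‖f.symm y - f.symm y'‖ + κ) := by
  have h := (hf.2 (f.symm y) (f.symm y')).1
  simpa using h

omit [NormedSpace ℝ X₁] [NormedSpace ℝ Y] in
private theorem RGood.symm_zero {L κ : ℝ} {f : X₁ ≃ Y} (hf : RGood L κ f) : f.symm 0 = 0 := by
  rw [Equiv.symm_apply_eq, hf.1]

variable (X₁) in
/-- Bounds for the sizes of `f.symm y`. -/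
private def RS (L : ℝ) (y : Y) : Set ℝ :=
  {c | ∃ κ : ℝ, 0 < κ ∧ ∀ f : X₁ ≃ Y, RGood L κ f → ‖f.symm y‖ ≤ c}

variable (X₁) in
/-- The new norm. -/
private noncomputable def RN (L : ℝ) (y : Y) : ℝ := sInf (RS X₁ L y)

omit [NormedSpace ℝ X₁] [NormedSpace ℝ Y] in
private theorem RS_mem (L : ℝ) (y : Y) {κ : ℝ} (hκ : 0 < κ) : L * (‖y‖ + κ) ∈ RS X₁ L y := by
  refine ⟨κ, hκ, fun f hf => ?_⟩
  have := hf.symm_le y 0
  rwa [hf.symm_zero, sub_zero, sub_zero] at this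

omit [NormedSpace ℝ X₁] [NormedSpace ℝ Y] in
private theorem RS_nonneg {L : ℝ} (h : CoarseEq X₁ Y L) (y : Y) {c : ℝ}
    (hc : c ∈ RS X₁ L y) : 0 ≤ c := by
  obtain ⟨κ, hκ, hc⟩ := hc
  obtain ⟨f, hf⟩ := h κ hκ
  exact (norm_nonneg _).trans (hc f hf)

omit [NormedSpace ℝ X₁] [NormedSpace ℝ Y] in
private theorem RS_bdd {L : ℝ} (h : CoarseEq X₁ Y L) (y : Y) : BddBelow (RS X₁ L y) :=
  ⟨0, fun _ hc => RS_nonneg h y hc⟩

omit [NormedSpace ℝ X₁] [NormedSpace ℝ Y] in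
private theorem RN_le {L : ℝ} (h : CoarseEq X₁ Y L) {y : Y} {c : ℝ} (hc : c ∈ RS X₁ L y) :
    RN X₁ L y ≤ c := csInf_le (RS_bdd h y) hc

omit [NormedSpace ℝ X₁] [NormedSpace ℝ Y] in
private theorem RN_lt {L : ℝ} {y : Y} {c : ℝ} (hc : RN X₁ L y < c) : c ∈ RS X₁ L y := by
  obtain ⟨a, ⟨κ, hκ, ha⟩, hac⟩ := exists_lt_of_csInf_lt ⟨_, RS_mem L y one_pos⟩ hc
  exact ⟨κ, hκ, fun f hf => (ha f hf).trans hac.le⟩

omit [NormedSpace ℝ X₁] [NormedSpace ℝ Y] in
private theorem RN_nonneg {L : ℝ} (h : CoarseEq X₁ Y L) (y : Y) : 0 ≤ RN X₁ L y :=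
  le_csInf ⟨_, RS_mem L y one_pos⟩ fun _ hc => RS_nonneg h y hc

omit [NormedSpace ℝ X₁] [NormedSpace ℝ Y] in
private theorem RN_upper {L : ℝ} (hL : 0 < L) (h : CoarseEq X₁ Y L) (y : Y) :
    RN X₁ L y ≤ L * ‖y‖ := by
  refine le_of_forall_pos_le_add fun ε hε => ?_
  refine (RN_le h (RS_mem L y (div_pos hε hL))).trans (le_of_eq ?_)
  field_simp

omit [NormedSpace ℝ X₁] [NormedSpace ℝ Y] in
private theorem RN_lower {L : ℝ} (hL : 0 < L) (h : CoarseEq X₁ Y L) (y : Y) :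
    ‖y‖ ≤ L * RN X₁ L y := by
  refine le_of_forall_pos_le_add fun ε hε => ?_
  have hε' : 0 < ε / (2 * L) := by positivity
  obtain ⟨κ, hκ, hc⟩ := RN_lt (lt_add_of_pos_right (RN X₁ L y) hε')
  obtain ⟨f, hf⟩ := h (min κ (ε / (2 * L))) (lt_min hκ hε')
  have h1 : ‖f.symm y‖ ≤ _ := hc f (RGood.mono hL (min_le_left _ _) hf)
  have h2 := RGood.le_symm hf y 0
  rw [RGood.symm_zero hf, sub_zero, sub_zero] at h2
  refine h2.trans ?_
  calc L * (‖f.symm y‖ + min κ (ε / (2 * L)))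
      ≤ L * ((RN X₁ L y + ε / (2 * L)) + ε / (2 * L)) := by
        gcongr
        exact min_le_right _ _
    _ = _ := by field_simp; ring

omit [NormedSpace ℝ X₁] [NormedSpace ℝ Y] in
private theorem RN_add {L : ℝ} (hL : 0 < L) (h : CoarseEq X₁ Y L) (y y' : Y) :
    RN X₁ L (y + y') ≤ RN X₁ L y + RN X₁ L y' := by
  refine le_of_forall_pos_le_add fun ε hε => ?_
  obtain ⟨κ, hκ, hc⟩ := RN_lt (lt_add_of_pos_right (RN X₁ L y) (half_pos hε))
  obtain ⟨κ', hκ', hc'⟩ := RN_lt (lt_add_of_pos_right (RN X₁ L y') (half_pos hε))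
  have key : RN X₁ L y + ε / 2 + (RN X₁ L y' + ε / 2) ∈ RS X₁ L (y + y') := by
    refine ⟨min κ κ', lt_min hκ hκ', fun f hf => ?_⟩
    have h1 := hc f (hf.mono hL (min_le_left _ _))
    have h2 := hc' (Rrb f y) ((hf.mono hL (min_le_right _ _)).rb y)
    rw [Rrb_symm] at h2
    have e : f.symm (y + y') = f.symm y + (f.symm (y' + y) - f.symm y) := by
      rw [add_comm y' y]
      abel
    rw [e]
    exact (norm_add_le _ _).trans (add_le_add h1 h2)
  refine (RN_le h key).trans (le_of_eq ?_)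
  ring

omit [NormedSpace ℝ X₁] [NormedSpace ℝ Y] in
private theorem RN_neg_le {L : ℝ} (h : CoarseEq X₁ Y L) (y : Y) :
    RN X₁ L (-y) ≤ RN X₁ L y := by
  refine le_of_forall_pos_le_add fun ε hε => ?_
  obtain ⟨κ, hκ, hc⟩ := RN_lt (lt_add_of_pos_right (RN X₁ L y) hε)
  refine RN_le h ⟨κ, hκ, fun f hf => ?_⟩
  have h2 := hc (Rrb f (-y)) (hf.rb (-y))
  rw [Rrb_symm, add_neg_cancel, hf.symm_zero, zero_sub, norm_neg] at h2
  exact h2

omit [NormedSpace ℝ X₁] [NormedSpace ℝ Y] in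
private theorem RN_neg {L : ℝ} (h : CoarseEq X₁ Y L) (y : Y) :
    RN X₁ L (-y) = RN X₁ L y := by
  refine le_antisymm (RN_neg_le h y) ?_
  have := RN_neg_le h (-y)
  rwa [neg_neg] at this

private theorem RN_smul_le {L : ℝ} (h : CoarseEq X₁ Y L) (y : Y) (r : ℝ) (hr : 0 < r) :
    RN X₁ L (r • y) ≤ r * RN X₁ L y := by
  refine le_of_forall_pos_le_add fun ε hε => ?_
  obtain ⟨κ, hκ, hc⟩ := RN_lt (lt_add_of_pos_right (RN X₁ L y) (div_pos hε hr))
  refine RN_le h ⟨r * κ, mul_pos hr hκ, fun f hf => ?_⟩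
  have h2 := hc (Rrs f r hr.ne') (hf.rs r hr)
  rw [Rrs_symm, norm_smul, norm_inv, Real.norm_of_nonneg hr.le, inv_mul_le_iff₀ hr] at h2
  refine h2.trans (le_of_eq ?_)
  field_simp

private theorem RN_smul_pos {L : ℝ} (h : CoarseEq X₁ Y L) (y : Y) (r : ℝ) (hr : 0 < r) :
    RN X₁ L (r • y) = r * RN X₁ L y := by
  refine le_antisymm (RN_smul_le h y r hr) ?_
  have := RN_smul_le h (r • y) r⁻¹ (inv_pos.2 hr)
  rw [smul_smul, inv_mul_cancel₀ hr.ne', one_smul, le_inv_mul_iff₀ hr] at this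
  exact this

omit [NormedSpace ℝ X₁] [NormedSpace ℝ Y] in
private theorem RN_zero {L : ℝ} (hL : 0 < L) (h : CoarseEq X₁ Y L) : RN X₁ L (0 : Y) = 0 := by
  refine le_antisymm ?_ (RN_nonneg h 0)
  have := RN_upper hL h (0 : Y)
  rwa [norm_zero, mul_zero] at this

private theorem RN_smul {L : ℝ} (hL : 0 < L) (h : CoarseEq X₁ Y L) (y : Y) (r : ℝ) :
    RN X₁ L (r • y) = |r| * RN X₁ L y := by
  rcases lt_trichotomy r 0 with hr | rfl | hr
  · rw [abs_of_neg hr, ← RN_smul_pos h y (-r) (neg_pos.2 hr), neg_smul, RN_neg h]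
  · rw [zero_smul, abs_zero, zero_mul, RN_zero hL h]
  · rw [abs_of_pos hr, RN_smul_pos h y r hr]

omit [NormedSpace ℝ Y] in
private theorem RN_uc [UniformConvexSpace X₁] {L : ℝ} (hL : 0 < L) (h : CoarseEq X₁ Y L)
    {ε : ℝ} (hε : 0 < ε) : ∃ δ : ℝ, 0 < δ ∧ ∀ y y' : Y, RN X₁ L y = 1 → RN X₁ L y' = 1 →
      ε ≤ RN X₁ L (y - y') → RN X₁ L (y + y') ≤ 2 - δ := by
  set ε₂ : ℝ := ε / (8 * L ^ 2) with hε₂
  have hε₂0 : 0 < ε₂ := by positivity
  obtain ⟨δ₁, hδ₁, huc⟩ := exists_forall_closed_ball_dist_add_le_two_sub X₁ hε₂0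
  set δ : ℝ := min 1 (δ₁ / 4) with hδ
  have hδ0 : 0 < δ := lt_min one_pos (by positivity)
  have hδ1 : δ ≤ 1 := min_le_left _ _
  have hδ2 : 4 * δ ≤ δ₁ := by
    have : δ ≤ δ₁ / 4 := min_le_right _ _
    linarith
  have huc' : ∀ a b : X₁, ‖a‖ ≤ 1 + δ → ‖b‖ ≤ 1 + δ → 2 - δ < ‖a + b‖ → ‖a - b‖ < 2 * ε₂ := by
    intro a b ha hb hab
    by_contra hcon
    push Not at hcon
    have hp : 0 < 1 + δ := by linarith
    have h1 := huc (x := (1 + δ)⁻¹ • a) (by
      rw [norm_smul, norm_inv, Real.norm_of_nonneg hp.le, inv_mul_le_iff₀ hp, mul_one]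
      exact ha) (y := (1 + δ)⁻¹ • b) (by
      rw [norm_smul, norm_inv, Real.norm_of_nonneg hp.le, inv_mul_le_iff₀ hp, mul_one]
      exact hb) (by
      rw [← smul_sub, norm_smul, norm_inv, Real.norm_of_nonneg hp.le, le_inv_mul_iff₀ hp]
      nlinarith)
    rw [← smul_add, norm_smul, norm_inv, Real.norm_of_nonneg hp.le, inv_mul_le_iff₀ hp] at h1
    nlinarith
  refine ⟨δ, hδ0, fun y y' hy hy' hyy => ?_⟩
  by_contra hcon
  push Not at hcon
  obtain ⟨κ, hκ, hc⟩ := RN_lt (show RN X₁ L y < 1 + δ by linarith)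
  obtain ⟨κ', hκ', hc'⟩ := RN_lt (show RN X₁ L y' < 1 + δ by linarith)
  set κ₀ : ℝ := min (min κ κ') ε₂ with hκ₀
  have hκ₀0 : 0 < κ₀ := lt_min (lt_min hκ hκ') hε₂0
  have hnot : ¬ (2 - δ) ∈ RS X₁ L (y + y') := fun hm => by
    have := RN_le h hm
    linarith
  have hex : ∃ f : X₁ ≃ Y, RGood L κ₀ f ∧ 2 - δ < ‖f.symm (y + y')‖ := by
    by_contra hno
    push Not at hno
    exact hnot ⟨κ₀, hκ₀0, hno⟩
  obtain ⟨f, hf, hfy⟩ := hex
  have hk1 : κ₀ ≤ κ := (min_le_left _ _).trans (min_le_left _ _)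
  have hk2 : κ₀ ≤ κ' := (min_le_left _ _).trans (min_le_right _ _)
  have hk3 : κ₀ ≤ ε₂ := min_le_right _ _
  have a1 := hc f (hf.mono hL hk1)
  have a2 := hc' f (hf.mono hL hk2)
  have b1 := hc' (Rrb f y) ((hf.mono hL hk2).rb y)
  have b2 := hc (Rrb f y') ((hf.mono hL hk1).rb y')
  rw [Rrb_symm] at b1 b2
  rw [add_comm y' y] at b1
  have c1 := huc' (f.symm y) (f.symm (y + y') - f.symm y) a1 b1 (by
    rw [add_sub_cancel]
    exact hfy)
  have c2 := huc' (f.symm y') (f.symm (y + y') - f.symm y') a2 b2 (by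
    rw [add_sub_cancel]
    exact hfy)
  have e : (2 : ℝ) • (f.symm y - f.symm y') = (f.symm y - (f.symm (y + y') - f.symm y)) -
      (f.symm y' - (f.symm (y + y') - f.symm y')) := by
    rw [two_smul]
    abel
  have d1 : ‖f.symm y - f.symm y'‖ < 2 * ε₂ := by
    have h3 : ‖(2 : ℝ) • (f.symm y - f.symm y')‖ < 4 * ε₂ := by
      rw [e]
      refine (norm_sub_le _ _).trans_lt ?_
      linarith
    rw [norm_smul, Real.norm_of_nonneg (by norm_num : (0 : ℝ) ≤ 2)] at h3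
    linarith
  have d2 := hf.le_symm y y'
  have d3 := RN_upper hL h (y - y')
  have d4 : ‖y - y'‖ < L * (3 * ε₂) := by
    refine d2.trans_lt ?_
    apply mul_lt_mul_of_pos_left _ hL
    linarith
  have d5 : RN X₁ L (y - y') < L * (L * (3 * ε₂)) := by
    refine d3.trans_lt ?_
    exact mul_lt_mul_of_pos_left d4 hL
  have d6 : L * (L * (3 * ε₂)) = 3 / 8 * ε := by
    rw [hε₂]
    field_simp
  rw [d6] at d5
  linarith

/-- The space with the new norm. -/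
private structure RenY (Y : Type v) where
  /-- the underlying vector -/
  val : Y

private def RenY.equiv (Y : Type v) : RenY Y ≃ Y where
  toFun y := y.val
  invFun y := ⟨y⟩
  left_inv _ := rfl
  right_inv _ := rfl

end Renorm

/-- JOB Renorm. Uniformly convex renormings are transferred by coarse equivalences.

Proof. For `κ > 0` let `N_κ y = sup ‖f.symm y‖` over all `f : X₁ ≃ Y` with `f 0 = 0`,
`Coarse L κ f`, and `N y = inf_κ N_κ y = lim_{κ → 0} N_κ y`. `N` is subadditive (rebase `f`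
at `f.symm y`), `N (r y) = |r| N y` (rescale; `N_κ (r y) = r N_{κ/r} y`; for `-1` rebase at
`f.symm (-y)`), `‖y‖ / L ≤ N y ≤ L ‖y‖`. Uniform convexity: let `N y ≤ 1`, `N y' ≤ 1`,
`N (y + y') ≥ 2 - δ`; take `κ` small, so `N_κ y, N_κ y' ≤ 1 + δ`, and `f` with
`‖g (y + y')‖ ≥ 2 - 2 δ`, `g = f.symm`. Then `a = g y` and `b = g (y + y') - g y` have norm
`≤ 1 + δ`, so `‖a - b‖` is small by uniform convexity of `X₁`, i.e. `g y` is close to
`g (y + y') / 2`; the same for `g y'`. So `g y` and `g y'` are close, hence so are `y` and `y'`.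
The type `Y₁` is `Y` with the norm `N` (e.g. via `AddGroupNorm`/`NormedAddCommGroup.ofCore`). -/
theorem exists_uc_renorm (X₁ : Type u) [NormedAddCommGroup X₁] [NormedSpace ℝ X₁]
    [UniformConvexSpace X₁] (Y : Type v) [NormedAddCommGroup Y] [NormedSpace ℝ Y] (L : ℝ)
    (hL : 0 < L) (h : CoarseEq X₁ Y L) :
    ∃ (Y₁ : Type v) (_ : NormedAddCommGroup Y₁) (_ : NormedSpace ℝ Y₁)
      (_ : UniformConvexSpace Y₁), Nonempty (Y ≃L[ℝ] Y₁) := by
  let i1 : AddCommGroup (RenY Y) := (RenY.equiv Y).addCommGroup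
  let i2 : Module ℝ (RenY Y) := (RenY.equiv Y).module ℝ
  let i3 : Norm (RenY Y) := ⟨fun y => RN X₁ L y.val⟩
  have core : NormedSpace.Core ℝ (RenY Y) :=
    { norm_nonneg := fun y => RN_nonneg h y.val
      norm_smul := fun r y => RN_smul hL h y.val r
      norm_triangle := fun y y' => RN_add hL h y.val y'.val
      norm_eq_zero_iff := fun y => by
        constructor
        · intro hy
          have h1 := RN_lower hL h y.val
          have h2 : RN X₁ L y.val = 0 := hy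
          rw [h2, mul_zero, norm_le_zero_iff] at h1
          exact (RenY.equiv Y).injective h1
        · rintro rfl
          exact RN_zero hL h }
  let i4 : NormedAddCommGroup (RenY Y) := NormedAddCommGroup.ofCore core
  let i5 : NormedSpace ℝ (RenY Y) := NormedSpace.ofCore core
  refine ⟨RenY Y, i4, i5, ?_, ?_⟩
  · refine ⟨fun ε hε => ?_⟩
    obtain ⟨δ, hδ, hd⟩ := RN_uc (X₁ := X₁) hL h hε
    exact ⟨δ, hδ, fun y hy y' hy' hyy => hd y.val y'.val hy hy' hyy⟩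
  · let e : Y ≃ₗ[ℝ] RenY Y :=
      { toFun := fun y => ⟨y⟩
        invFun := fun y => y.val
        map_add' := fun _ _ => rfl
        map_smul' := fun _ _ => rfl
        left_inv := fun _ => rfl
        right_inv := fun _ => rfl }
    exact ⟨e.toContinuousLinearEquivOfBounds L L (fun y => RN_upper hL h y)
      (fun y => RN_lower hL h y.val)⟩

end Pool.Agent.CPav
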