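import Pool.Agent.Lib.MP_758516_an.Joint
import Pool.Agent.Lib.MP_758516_an.FD1
import Pool.Agent.Lib.MP_758516_an.FD2
import Pool.Agent.Lib.MP_758516_an.PavA
import Pool.Agent.Lib.MP_758516_an.PavB
import Pool.Agent.Lib.MP_758516_an.CoarA
import Pool.Agent.Lib.MP_758516_an.CoarB
import Pool.Agent.Lib.MP_758516_an.Renorm

open Set Filter Topology

namespace Pool.Agent.CPav

universe u v

/-- `X` admits an equivalent uniformly convex norm. -/
def IsoUniformlyConvex (X : Type u) [NormedAddCommGroup X] [NormedSpace ℝ X] : Prop :=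
  ∃ (X₁ : Type u) (_ : NormedAddCommGroup X₁) (_ : NormedSpace ℝ X₁) (_ : UniformConvexSpace X₁),
    Nonempty (X ≃L[ℝ] X₁)

/-- `X` admits an equivalent uniformly smooth norm. -/
def IsoUniformlySmooth (X : Type u) [NormedAddCommGroup X] [NormedSpace ℝ X] : Prop :=
  ∃ (X₂ : Type u) (_ : NormedAddCommGroup X₂) (_ : NormedSpace ℝ X₂),
    UnifSmooth X₂ ∧ Nonempty (X ≃L[ℝ] X₂)

theorem jointExt_of_coarse {X Y X₁ : Type*}
    [NormedAddCommGroup X] [NormedSpace ℝ X] [NormedAddCommGroup Y] [NormedSpace ℝ Y]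
    [NormedAddCommGroup X₁] [NormedSpace ℝ X₁]
    (hX : UnifSmooth X) [UniformConvexSpace Y] [UniformConvexSpace X₁]
    (A₁ : X ≃L[ℝ] X₁) (L : ℝ) (hL : 0 < L) (h : CoarseEq X Y L) :
    JointExt X Y (4 * L ^ 2) := by
  intro E F hE hF
  let bE := Module.finBasis ℝ E
  let bF := Module.finBasis ℝ F
  let e : Fin (Module.finrank ℝ E) → X := fun i => (bE i : X)
  let v : Fin (Module.finrank ℝ F) → Y := fun j => (bF j : Y)
  have he : LinearIndependent ℝ e :=
    bE.linearIndependent.map' E.subtype (Submodule.ker_subtype E)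
  have hv : LinearIndependent ℝ v :=
    bF.linearIndependent.map' F.subtype (Submodule.ker_subtype F)
  obtain ⟨p, q, h1, h2, h3, h4, h5⟩ := exists_limit L hL _ _ e v
    (joint_approx hX A₁ L hL h _ _ e v hv)
  obtain ⟨E', F', hE', hF', f1, f2, T, hT⟩ :=
    exists_common L hL _ _ e v he hv p q h1 h2 h3 h4 h5
  refine ⟨E', F', ?_, ?_, f1, f2, T, hT⟩
  · intro x hx
    have h' : x = ∑ i, bE.repr ⟨x, hx⟩ i • e i := by
      have := congrArg E.subtype (bE.sum_repr ⟨x, hx⟩)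
      rw [map_sum] at this
      simp only [map_smul, Submodule.subtype_apply] at this
      exact this.symm
    rw [h']
    exact Submodule.sum_mem _ fun i _ => Submodule.smul_mem _ _ (hE' i)
  · intro x hx
    have h' : x = ∑ i, bF.repr ⟨x, hx⟩ i • v i := by
      have := congrArg F.subtype (bF.sum_repr ⟨x, hx⟩)
      rw [map_sum] at this
      simp only [map_smul, Submodule.subtype_apply] at this
      exact this.symm
    rw [h']
    exact Submodule.sum_mem _ fun i _ => Submodule.smul_mem _ _ (hF' i)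

/-- Every separable Banach space uniformly homeomorphic to a separable superreflexive space `X`
(i.e. `X` has an equivalent uniformly convex norm and an equivalent uniformly smooth norm)
has a common paving with `X`. -/
theorem main (X : Type u) (Y : Type v)
    [NormedAddCommGroup X] [NormedSpace ℝ X]
    [TopologicalSpace.SeparableSpace X]
    [NormedAddCommGroup Y] [NormedSpace ℝ Y]
    [TopologicalSpace.SeparableSpace Y]
    (hc : IsoUniformlyConvex X) (hs : IsoUniformlySmooth X)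
    (hΦ : Nonempty (UniformEquiv X Y)) :
      ∃ (E : ℕ → Submodule ℝ X) (F : ℕ → Submodule ℝ Y),
        Monotone E ∧ Monotone F ∧
        (∀ n, FiniteDimensional ℝ ↥(E n)) ∧ (∀ n, FiniteDimensional ℝ ↥(F n)) ∧
        Dense (⋃ n, (E n : Set X)) ∧ Dense (⋃ n, (F n : Set Y)) ∧
        ∃ (T : ∀ n, ↥(E n) ≃L[ℝ] ↥(F n)) (C : ℝ), ∀ n,
          ‖((T n : ↥(E n) →L[ℝ] ↥(F n)))‖ *
            ‖(((T n).symm : ↥(F n) →L[ℝ] ↥(E n)))‖ ≤ C := by
  obtain ⟨Φ⟩ := hΦ
  obtain ⟨X₁, i1, i2, i3, ⟨A₁⟩⟩ := hc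
  obtain ⟨X₂, j1, j2, hs', ⟨A₂⟩⟩ := hs
  obtain ⟨L, hL, hco⟩ := coarseEq_of_uniform Φ
  obtain ⟨L₁, hL₁, hco₁⟩ := hco.congr A₁ (ContinuousLinearEquiv.refl ℝ Y) L hL
  obtain ⟨Y₁, k1, k2, k3, ⟨B⟩⟩ := exists_uc_renorm X₁ Y L₁ hL₁ hco₁
  obtain ⟨L₂, hL₂, hco₂⟩ := hco.congr A₂ B L hL
  have hj : JointExt X₂ Y₁ (4 * L₂ ^ 2) :=
    jointExt_of_coarse hs' (A₂.symm.trans A₁) L₂ hL₂ hco₂
  obtain ⟨C', hC'⟩ := jointExt_congr A₂ B _ hj
  exact paving_of_jointExt C' hC'

end Pool.Agent.CPav
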